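import Pool.Agent.Helper75.SH.HTH
import Pool.Agent.Helper2.SH.NFTS
import Pool.Agent.Helper71.SH.Sq

/-!
# Project RC, SHARP, cell engine: THE HEAD/TAIL REDUCTION

`HTok`: the data. `HT_final`: for all tails, the functional of the cell is at least `HF v`.
-/

open MeasureTheory Set Filter Topology

namespace Pool.Agent.Helper75.SH

open Helper49.LT hiding sg
open Helper49.RC (om)
open Helper95.RC
open Helper49.Sharp
open Helper41.SH (IA inv)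
open Helper95.SH hiding g1L g2L
open Helper87.RC (BM)
open Helper56.RC (fc)
open Pool.Agent.Helper20.RC (lk lk_ge lk_sq eM wR)
open Pool.Agent.Helper17.RC (WOK mX mY)
open Pool.Agent.Helper2.SH (NF_tailS)
open Helper71.SH (sq_rows Yr_herm Zr_herm)

/-- data and conditions of the reduction -/
structure HTok (D : CD) (c : TSc) (kd : ℝ → ℝ) (al be ga wl : ℕ → ℝ) (A alI bL d k ph del : ℝ) (k0 k1 M0 : ℕ) :
    Prop where
  reg : D.P.Reg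
  i1 : IA D.Th1 D.Th1'
  i2 : IA D.Th2 D.Th2'
  a0 : ∀ n, fc D.P.a0 n = 0
  hf : ∀ x, D.L.f (x + 2 * Real.pi) = D.L.f x
  kok : KD D kd
  ts : TSP c D kd
  oK : Odd c.K
  eL : Even c.L
  ps : D.P.ps = Pool.Agent.Helper99.RC.ps d k ph
  del0 : 0 < del
  hdk : del ^ 2 ≤ 1 - 9 / 4 * k ^ 2
  hk : |k| ≤ 2 / 5
  hkap : del⁻¹ ≤ c.kap
  hth : 0 < c.th
  m12 : 12 ≤ M0
  mK : M0 + 2 ≤ c.K
  mL : M0 + 2 ≤ c.L
  l0 : c.l0 = 2 * k0 + 2
  pa : ∀ j, 0 < al j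
  pb : ∀ j, 0 < be j
  pg : ∀ j, 0 < ga j
  ua : ∀ j, al j ≤ A
  ub : ∀ j, be j ≤ A
  ug : ∀ j, ga j ≤ A
  w : ∀ j, 1 / al j + 1 / be j + 1 / ga j ≤ 1 ∨ (2 * j + 2 < c.L ∧ 1 / al j + 1 / ga j ≤ 1)
  wI : ∀ j, k1 ≤ j → al j ≤ alI
  wb : ∀ j, c.L < 2 * j + 2 → be j ≤ c.be
  wL : ∀ j, 2 * j + 2 = c.L → be j ≤ bL
  bb : c.be ≤ bL
  wg : ∀ j, k0 ≤ j → ga j ≤ c.ga
  low : ∀ j, j < k0 → ∀ (M : ℕ) (a1 a2 : ℤ → ℂ), (∀ n : ℤ, |n| ≤ M0 → a1 n = 0) → (∀ n : ℤ, |n| ≤ M0 → a2 n = 0) →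
    ‖WT D.Th1 D.Th1' D.Th2 D.Th2' M a1 a2 j‖ ^ 2 ≤ wl j *
      (∑ n ∈ Finset.Icc (-(M : ℤ)) M, ‖a1 n‖ ^ 2 + ∑ n ∈ Finset.Icc (-(M : ℤ)) M, ‖a2 n‖ ^ 2)
  dlow : D.P.nu / 2 * ∑ j ∈ Finset.range k0, ga j * ((lk j ^ 2 - 1) * wl j) + 3 / 2 * (9 / 20) ^ M0 ≤ c.dlow
  tz : 0 < c.tz
  t2 : 0 < c.t2 - x2 c D bL
  t3 : 0 < c.t3 - x3 c D bL

section

variable {D : CD} {c : TSc} {kd : ℝ → ℝ} {al be ga wl : ℕ → ℝ} {A alI bL d k ph del : ℝ} {k0 k1 M0 : ℕ}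

/-- the families of a tail vanish in the middle -/
theorem CL_zero {P : Par} {K L M0 N : ℕ} {p r s : ℤ → ℂ} (h : TlKL K L p r s) (mK : M0 + 2 ≤ K) (mL : M0 + 2 ≤ L)
    (a : Arr N p r s) (oK : Odd K) (eL : Even L) {m : ℤ} (hm : |m| ≤ M0) : C1L P p r s m = 0 ∧ C2L P p r s m = 0 := by
  have zp : ∀ n : ℤ, |n| ≤ L → p n = 0 := fun n hn => h.p0 n (by rw [Finset.mem_Icc]; exact abs_le.1 hn)
  have zr : ∀ n : ℤ, |n| ≤ L → r n = 0 := fun n hn => h.r0 n (by rw [Finset.mem_Icc]; exact abs_le.1 hn)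
  have zs : ∀ n : ℤ, |n| ≤ K → s n = 0 := fun n hn => h.s0 n (by rw [Finset.mem_Icc]; exact abs_le.1 hn)
  have b := abs_le.1 hm
  obtain ⟨i, hi⟩ := oK
  obtain ⟨j, hj⟩ := eL
  have w0 : wm P.eta p (m - 1) = 0 := by
    by_cases he : Even (m - 1)
    · obtain ⟨q, hq⟩ := he
      exact wm_tail0 zp (by rw [← sub_nonneg]; rcases abs_cases (m - 1) with ⟨e, _⟩ | ⟨e, _⟩ <;> rw [e] <;> omega)
    · exact wm_odd a.ep he
  have w1 : wm P.eta r (m - 1) = 0 := by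
    by_cases he : Even (m - 1)
    · obtain ⟨q, hq⟩ := he
      exact wm_tail0 zr (by rw [← sub_nonneg]; rcases abs_cases (m - 1) with ⟨e, _⟩ | ⟨e, _⟩ <;> rw [e] <;> omega)
    · exact wm_odd a.er he
  have w2 : wm P.eta s (m - 1) = 0 := by
    by_cases he : Even (m - 1)
    · unfold wm
      rw [a.es _ he, a.es (m - 1 - 2) (by rw [Int.even_sub]; simp [he]), a.es (m - 1 + 2) (by rw [Int.even_add]; simp [he])]
      ring
    · obtain ⟨q, hq⟩ := Int.not_even_iff_odd.1 he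
      exact wm_tail0 zs (by rw [← sub_nonneg]; rcases abs_cases (m - 1) with ⟨e, _⟩ | ⟨e, _⟩ <;> rw [e] <;> omega)
  rw [C1L_eq, C2L_eq]
  unfold G1L G2L
  rw [w0, w1, w2]
  simp

/-- the low rows on a tail -/
theorem HTok.low_tail (o : HTok D c kd al be ga wl A alI bL d k ph del k0 k1 M0) {N : ℕ} {p r s : ℤ → ℂ}
    (a : Arr N p r s) (h : TlKL c.K c.L p r s) :
    D.P.nu / 2 * ∑ j ∈ Finset.range k0, ga j * ((lk j ^ 2 - 1) *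
      ‖WT D.Th1 D.Th1' D.Th2 D.Th2' (N + 3) (C1L D.P p r s) (C2L D.P p r s) j‖ ^ 2) ≤
      (D.P.nu / 2 * ∑ j ∈ Finset.range k0, ga j * ((lk j ^ 2 - 1) * wl j)) * MC D N p r s := by
  have hν := o.reg.nu0
  have e : (D.P.nu / 2 * ∑ j ∈ Finset.range k0, ga j * ((lk j ^ 2 - 1) * wl j)) * MC D N p r s =
      D.P.nu / 2 * ∑ j ∈ Finset.range k0, ga j * ((lk j ^ 2 - 1) * (wl j * MC D N p r s)) := by
    rw [mul_assoc, Finset.sum_mul]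
    congr 1
    exact Finset.sum_congr rfl fun j _ => by ring
  rw [e]
  refine mul_le_mul_of_nonneg_left (Finset.sum_le_sum fun j hj => ?_) (by positivity)
  refine mul_le_mul_of_nonneg_left (mul_le_mul_of_nonneg_left ?_ (lk_sq j).le) (o.pg j).le
  exact o.low j (Finset.mem_range.1 hj) (N + 3) _ _ (fun n hn => (CL_zero h o.mK o.mL a o.oK o.eL hn).1)
    (fun n hn => (CL_zero h o.mK o.mL a o.oK o.eL hn).2)

/-- the form `NF` on a tail -/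
theorem HTok.nf_tail (o : HTok D c kd al be ga wl A alI bL d k ph del k0 k1 M0) {N : ℕ} {p r s : ℤ → ℂ}
    (a : Arr N p r s) (h : TlKL c.K c.L p r s) :
    -nfc c D N p r s - 3 / 2 * (9 / 20) ^ M0 * MC D N p r s ≤ NF D.P.ps (N + 3) (C1L D.P p r s) (C2L D.P p r s) := by
  have zp : ∀ n : ℤ, |n| ≤ c.L → p n = 0 := fun n hn => h.p0 n (by rw [Finset.mem_Icc]; exact abs_le.1 hn)
  have zr : ∀ n : ℤ, |n| ≤ c.L → r n = 0 := fun n hn => h.r0 n (by rw [Finset.mem_Icc]; exact abs_le.1 hn)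
  have zs : ∀ n : ℤ, |n| ≤ c.K → s n = 0 := fun n hn => h.s0 n (by rw [Finset.mem_Icc]; exact abs_le.1 hn)
  have t := NF_tailS o.ps o.del0 o.hdk o.hk o.hkap o.hth o.m12 o.mK (by have := o.mL; omega) o.oK o.eL a.sp a.sr a.ss
    a.hp a.hr a.ep a.er a.es zp zr zs
  rw [Finset.sum_add_distrib, ← par_w a.sp a.hp, ← par_w a.sr a.hr] at t
  unfold nfc MC
  have e1 : mA D N s = mean fun x => D.P.w x ^ 2 * ‖tpM N s x‖ ^ 2 := rfl
  have e2 : mR D N s = mean fun x => D.P.w x ^ 2 * (tpM N s x).re ^ 2 := rfl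
  have e3 : mI D N s = mean fun x => D.P.w x ^ 2 * (tpM N s x).im ^ 2 := rfl
  have e4 : WW D N p = ∑ n ∈ Finset.Icc (-((N + 2 : ℕ) : ℤ)) ((N + 2 : ℕ) : ℤ), ‖wm D.P.eta p n‖ ^ 2 := rfl
  have e5 : WW D N r = ∑ n ∈ Finset.Icc (-((N + 2 : ℕ) : ℤ)) ((N + 2 : ℕ) : ℤ), ‖wm D.P.eta r n‖ ^ 2 := rfl
  rw [e1, e2, e3, e4, e5]
  linarith

/-- the rows of the head are square summable -/
theorem HTok.sum_q (o : HTok D c kd al be ga wl A alI bL d k ph del k0 k1 M0) {N : ℕ} {p r s : ℤ → ℂ}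
    (a : Arr N p r s) : Summable fun j => (lk j ^ 2 - 1) * ‖qk D N p r s j‖ ^ 2 := by
  have s1 := HkL_summable (P := D.P) a.sp a.sr
  have s2 := WT_sumP o.kok o.i1 o.i2 (N + 3) (C1 D.P p r s) (C2 D.P p r s)
  refine Summable.of_nonneg_of_le (fun j => mul_nonneg (lk_sq j).le (sq_nonneg _)) (fun j => ?_)
    ((s1.mul_left 2).add (s2.mul_left (2 * (D.P.nu ^ 2 / 4))))
  have e : qk D N p r s j = HkL D.P p r j
      - (D.P.nu / 2 : ℂ) * WT D.Th1 D.Th1' D.Th2 D.Th2' (N + 3) (C1 D.P p r s) (C2 D.P p r s) j := by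
    have e0 : HkA D.P p r j = HkL D.P p r j := by
      unfold HkA HkL dlA dlL
      simp only [o.a0, sub_zero]
    unfold qk
    rw [e0]
    rfl
  rw [e]
  have e1 : ‖(D.P.nu / 2 : ℂ) * WT D.Th1 D.Th1' D.Th2 D.Th2' (N + 3) (C1 D.P p r s) (C2 D.P p r s) j‖ ^ 2 =
      D.P.nu ^ 2 / 4 * ‖WT D.Th1 D.Th1' D.Th2 D.Th2' (N + 3) (C1 D.P p r s) (C2 D.P p r s) j‖ ^ 2 := by
    have : (D.P.nu / 2 : ℂ) = ((D.P.nu / 2 : ℝ) : ℂ) := by push_cast; rfl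
    rw [norm_mul, mul_pow, this, Complex.norm_real, Real.norm_eq_abs, sq_abs]
    ring
  have h2 := norm2 (HkL D.P p r j) (-((D.P.nu / 2 : ℂ) *
    WT D.Th1 D.Th1' D.Th2 D.Th2' (N + 3) (C1 D.P p r s) (C2 D.P p r s) j)) (a := 2) (c := 2) (by norm_num)
    (by norm_num) (by norm_num)
  rw [norm_neg, e1, ← sub_eq_add_neg] at h2
  have h3 := mul_le_mul_of_nonneg_left h2 (lk_sq j).le
  refine h3.trans (le_of_eq ?_)
  ring

/-- the finite rows `X, Y, Z` -/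
noncomputable def SQR (D : CD) (c : TSc) (bL : ℝ) (J1 J2 N : ℕ) (p r s : ℤ → ℂ) : ℝ :=
  1 / c.tz * ∑ j ∈ Finset.range J1, (‖Xr D N p r s ((c.K : ℤ) + 2 + 2 * j)‖ ^ 2
      + ‖Xr D N p r s (-((c.K : ℤ) + 2 + 2 * j))‖ ^ 2)
    + 2 / (c.t2 - x2 c D bL) * ∑ j ∈ Finset.range J2, ‖Yr D N p r s ((c.L : ℤ) + 2 + 2 * j)‖ ^ 2
    + 2 / (c.t3 - x3 c D bL) * ∑ j ∈ Finset.range J2, ‖Zr D N p r s ((c.L : ℤ) + 2 + 2 * j)‖ ^ 2

/-- the far rows `X, Y, Z`, window `N'` of the frequencies -/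
noncomputable def FARR (D : CD) (c : TSc) (bL : ℝ) (J1 J2 N' N : ℕ) (p r s : ℤ → ℂ) : ℝ :=
  1 / c.tz * ∑ n ∈ (Finset.Icc (-(N' : ℤ)) N').filter (fun n => ¬ Even n ∧ (c.K : ℤ) + 2 * J1 < |n|),
      ‖Xr D N p r s n‖ ^ 2
    + 2 / (c.t2 - x2 c D bL) * ∑ n ∈ (Finset.Icc ((c.L : ℤ) + 2 * J2 + 1) (N' : ℤ)).filter Even, ‖Yr D N p r s n‖ ^ 2
    + 2 / (c.t3 - x3 c D bL) * ∑ n ∈ (Finset.Icc ((c.L : ℤ) + 2 * J2 + 1) (N' : ℤ)).filter Even, ‖Zr D N p r s n‖ ^ 2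

/-- the head part: a lower bound of the functional for all tails -/
noncomputable def HH (D : CD) (c : TSc) (al : ℕ → ℝ) (bL : ℝ) (k1 J1 J2 N : ℕ) (p r s : ℤ → ℂ) : ℝ :=
  HG D N p r s - 2 / D.P.nu * ∑ j ∈ Finset.range k1, al j * ((lk j ^ 2 - 1) * ‖qk D N p r s j‖ ^ 2)
    - SQR D c bL J1 J2 N p r s

/-- **head and tail**: one head array, all tails -/
theorem HTok.ht (o : HTok D c kd al be ga wl A alI bL d k ph del k0 k1 M0) (J1 J2 : ℕ) {M N : ℕ} (hM : D.K0 ≤ M)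
    (hMN : M ≤ N) {p r s p' r' s' : ℤ → ℂ} (a : Arr M p r s) (a' : Arr N p' r' s') (h : TlKL c.K c.L p' r' s')
    (hz : ∀ n, p n = 0 ∨ p' n = 0) :
    HH D c al bL k1 J1 J2 M p r s
      - 2 / D.P.nu * (alI * ∑' j : ℕ, (lk (j + k1) ^ 2 - 1) * ‖qk D M p r s (j + k1)‖ ^ 2)
      - FARR D c bL J1 J2 N M p r s ≤
    GI D N (fun n => p n + p' n) (fun n => r n + r' n) (fun n => s n + s' n) := by
  have hν := o.reg.nu0
  have aN : Arr N p r s := ⟨Sup.mono hMN a.sp, Sup.mono hMN a.sr, Sup.mono hMN a.ss, a.hp, a.hr, a.ep, a.er, a.es⟩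
  have hL4 : 4 ≤ c.L := by have := o.mL; have := o.m12; omega
  have hK5 : 5 ≤ c.K := by have := o.mK; have := o.m12; omega
  have hKo : ¬ Even c.K := Nat.not_even_iff_odd.2 o.oK
  rw [GI_ht D (hM.trans hMN) aN a' (h.tl4 hL4 hK5) hz]
  -- windows
  have w1 := HG_win D hMN hM a
  have w2 : qk D N p r s = qk D M p r s := funext fun j => qk_win D hMN a j
  have w3 := Xr_win D hMN hM a
  have w4 := Yr_win D hMN a
  have w5 := Zr_win D hMN a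
  rw [w1, w2, w3, w4, w5]
  -- the series
  have sq := o.sum_q a
  have sH := HkL_summable (P := D.P) a'.sp a'.sr
  have sW := WT_sumP o.kok o.i1 o.i2 (N + 3) (C1L D.P p' r' s') (C2L D.P p' r' s')
  have zp : ∀ n : ℤ, |n| ≤ c.L → p' n = 0 := fun n hn => h.p0 n (by rw [Finset.mem_Icc]; exact abs_le.1 hn)
  have zr : ∀ n : ℤ, |n| ≤ c.L → r' n = 0 := fun n hn => h.r0 n (by rw [Finset.mem_Icc]; exact abs_le.1 hn)
  have rw' : RW (HkL D.P p' r') al be ga A := ⟨o.pa, o.pb, o.pg, o.ua, o.ub, o.ug, fun j => by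
    rcases o.w j with hj | ⟨hj, hj2⟩
    · exact Or.inl hj
    · refine Or.inr ⟨HkL_low zp zr ?_, hj2⟩
      obtain ⟨i, hi⟩ := o.eL
      omega⟩
  have d1 := D_split (ν := D.P.nu) rw' sq sH sW
  have d2 := split_tail (k1 := k1) (fun j => mul_nonneg (lk_sq j).le (sq_nonneg ‖qk D M p r s j‖)) sq o.pa o.ua o.wI
  have d3 := tail_form o.kok o.reg o.i1 o.i2 o.ts o.hf hL4 o.eL a' h o.l0 o.wb o.wL
    ((o.pb c.L).le.trans (o.wb c.L (by omega))) o.bb o.pg o.ug o.wg (o.low_tail a' h) (o.nf_tail a' h) o.dlow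
  have d4 := sq_rows (J1 := J1) (J2 := J2) hKo o.eL a' h (X := Xr D M p r s) (Yr_herm D a) (Zr_herm D a) o.tz o.t2 o.t3
  have e0 : ∀ j, q0 D N p' r' s' j = HkL D.P p' r' j
      - (D.P.nu / 2 : ℂ) * WT D.Th1 D.Th1' D.Th2 D.Th2' (N + 3) (C1L D.P p' r' s') (C2L D.P p' r' s') j := fun j => rfl
  simp only [e0]
  have c2 : 0 ≤ 2 / D.P.nu := by positivity
  have d5 := mul_le_mul_of_nonneg_left (d1.trans (add_le_add (add_le_add d2 le_rfl) le_rfl)) c2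
  unfold HH SQR FARR
  simp only [mul_add] at d3 d5 ⊢
  linarith

/-- **THE HEAD/TAIL REDUCTION** in the coordinates of the head: the hypothesis `hT` of `GI_nonneg` -/
theorem HTok.final (o : HTok D c kd al be ga wl A alI bL d k ph del k0 k1 M0) (J1 J2 : ℕ) (hM : D.K0 ≤ max c.K c.L)
    {HF PT FR : (ℕ → ℝ) → ℝ}
    (hPT : ∀ v : ℕ → ℝ, v 0 = 1 → ∑' j : ℕ, (lk (j + k1) ^ 2 - 1) *
      ‖qk D (max c.K c.L) (pV c.K c.L v) (rV c.K c.L v) (sV c.K v) (j + k1)‖ ^ 2 ≤ PT v)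
    (hFR : ∀ (N : ℕ) (v : ℕ → ℝ), v 0 = 1 →
      FARR D c bL J1 J2 N (max c.K c.L) (pV c.K c.L v) (rV c.K c.L v) (sV c.K v) ≤ FR v)
    (hHF : ∀ v : ℕ → ℝ, v 0 = 1 → HF v ≤ HH D c al bL k1 J1 J2 (max c.K c.L) (pV c.K c.L v) (rV c.K c.L v) (sV c.K v)
      - 2 / D.P.nu * (alI * PT v) - FR v) :
    ∀ N, max c.K c.L ≤ N → ∀ v : ℕ → ℝ, v 0 = 1 → ∀ p' r' s' : ℤ → ℂ, Arr N p' r' s' → TlKL c.K c.L p' r' s' →
      HF v ≤ GI D N (fun n => pV c.K c.L v n + p' n) (fun n => rV c.K c.L v n + r' n) (fun n => sV c.K v n + s' n) := by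
  intro N hN v hv p' r' s' a' h
  have hν := o.reg.nu0
  have a := arrV (le_max_left c.K c.L) (le_max_right c.K c.L) v
  have hz : ∀ n, pV c.K c.L v n = 0 ∨ p' n = 0 := by
    intro n
    by_cases hn : n ∈ Finset.Icc (-(c.L : ℤ)) c.L
    · exact Or.inr (h.p0 n hn)
    · exact Or.inl (hV_sup c.L (bp c.K) v n hn)
  have t := o.ht J1 J2 hM hN a a' h hz
  have hI : 0 ≤ alI := (o.pa k1).le.trans (o.wI k1 le_rfl)
  have t1 := mul_le_mul_of_nonneg_left (mul_le_mul_of_nonneg_left (hPT v hv) hI) (by positivity : 0 ≤ 2 / D.P.nu)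
  have t2 := hFR N v hv
  have t3 := hHF v hv
  linarith

/-- **nonnegativity of the functional of a cell** from the nonnegativity of `HF` -/
theorem HTok.nonneg (o : HTok D c kd al be ga wl A alI bL d k ph del k0 k1 M0) (J1 J2 : ℕ) (hM : D.K0 ≤ max c.K c.L)
    {HF PT FR : (ℕ → ℝ) → ℝ}
    (hPT : ∀ v : ℕ → ℝ, v 0 = 1 → ∑' j : ℕ, (lk (j + k1) ^ 2 - 1) *
      ‖qk D (max c.K c.L) (pV c.K c.L v) (rV c.K c.L v) (sV c.K v) (j + k1)‖ ^ 2 ≤ PT v)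
    (hFR : ∀ (N : ℕ) (v : ℕ → ℝ), v 0 = 1 →
      FARR D c bL J1 J2 N (max c.K c.L) (pV c.K c.L v) (rV c.K c.L v) (sV c.K v) ≤ FR v)
    (hHF : ∀ v : ℕ → ℝ, v 0 = 1 → HF v ≤ HH D c al bL k1 J1 J2 (max c.K c.L) (pV c.K c.L v) (rV c.K c.L v) (sV c.K v)
      - 2 / D.P.nu * (alI * PT v) - FR v)
    (h0 : ∀ v : ℕ → ℝ, v 0 = 1 → 0 ≤ HF v) :
    ∀ N, max c.K c.L ≤ N → ∀ p r s, Arr N p r s → 0 ≤ GI D N p r s :=
  GI_nonneg (Nat.not_even_iff_odd.2 o.oK) (max c.K c.L) HF h0 (o.final J1 J2 hM hPT hFR hHF)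

end

end Pool.Agent.Helper75.SH
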