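import Pool.Agent.Helper75.SH.TSD

/-!
# Project RC, SHARP, cell engine, head/tail reduction: the pointwise tail symbol with a pointwise density

`TSSP`: as `TSS`, the constant `kap4` replaced by the value `kd (φ_j)` of a function at the angle.
`TS_TSP`: the constant density. `KD`: admissible densities. `kd0`: the sum of the slopes.
-/

open MeasureTheory Set Filter Topology

namespace Pool.Agent.Helper75.SH

open Helper49.LT hiding sg
open Helper49.RC (om)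
open Helper95.RC Helper95.SH
open Helper49.Sharp
open Helper41.SH (IA inv)

/-- one family: the price of the moments for the direction `v`, density `kp`, and the cost of the low rows -/
noncomputable def TSgP (c : TSc) (nu kp : ℝ) (g v : ℂ) : ℝ :=
  c.ga * (nu / 2) * (kp / 4) *
    (((c.l0 : ℝ) / (c.l0 - 1) + 1 / (c.l0 - 1)) / 2 * ‖g‖ ^ 2
      - ((c.l0 : ℝ) / (c.l0 - 1) - 1 / (c.l0 - 1)) / 2 * (g ^ 2 * (starRingEnd ℂ) v ^ 2).re)
  + c.dlow * ‖g‖ ^ 2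

/-- the pointwise form of the tail -/
noncomputable def TSSP (c : TSc) (D : CD) (kd : ℝ → ℝ) (x b2 b3 : ℝ) (z : ℂ) : ℝ :=
  (9 - D.P.cs) * (D.P.w x * (b2 ^ 2 + b3 ^ 2))
  + ((D.P.m - D.P.lam) * D.P.w x + D.mu1 / 2) * (D.L.f x * Lf z - D.L.p2 * b2 ^ 2 - D.L.p3 * b3 ^ 2)
  + 3 / 4 * (D.mu1 + D.mu2) * b2 ^ 2
  - D.P.w x ^ 2 * (c.be / D.P.nu * ((c.L : ℝ) / (4 * (c.L - 1)) * b3 ^ 2 + 1 / (c.L - 1) * b2 ^ 2)
      + 1 / ((c.L : ℝ) - 1) * (b2 ^ 2 + b3 ^ 2 / 4)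
      + c.kap / ((c.L : ℝ) - 1) * (21 / 4 * b2 ^ 2 + 75 / 8 * b3 ^ 2)
      + 1 / ((c.K : ℝ) - 1) * (2 * (c.kap - 1) * ‖z‖ ^ 2 + 2 * (1 + c.th) * z.re ^ 2 + 2 * (1 + 1 / c.th) * z.im ^ 2))
  - D.P.w x ^ 2 * (TSgP c D.P.nu (kd (inv D.Th1 (x + Real.pi / 3))) (g1L b2 b3 z) (ee (inv D.Th1 (x + Real.pi / 3) - x))
      + TSgP c D.P.nu (kd (inv D.Th2 (x + 2 * Real.pi / 3))) (g2L b2 b3 z) (ee (inv D.Th2 (x + 2 * Real.pi / 3) - x)))

/-- **the tail symbol** with a pointwise density -/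
def TSP (c : TSc) (D : CD) (kd : ℝ → ℝ) : Prop := ∀ (x b2 b3 : ℝ) (z : ℂ),
  2 * (c.tz * ‖z‖ ^ 2 + c.t2 * b2 ^ 2 + c.t3 * b3 ^ 2) ≤ TSSP c D kd x b2 b3 z + TSSP c D kd (x + Real.pi) b2 b3 (-z)

/-- the constant density -/
theorem TS_TSP {c : TSc} {D : CD} (h : TS c D) : TSP c D (fun _ => c.kap4) := h

/-- the sum of the slopes -/
noncomputable def kd0 (D : CD) (y : ℝ) : ℝ := D.Th1' y + D.Th1' (y + Real.pi) + D.Th2' y + D.Th2' (y + Real.pi)

/-- admissible densities -/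
structure KD (D : CD) (kd : ℝ → ℝ) : Prop where
  c : Continuous kd
  per : ∀ y, kd (y + Real.pi) = kd y
  le : ∀ y, D.Th1' y + D.Th1' (y + Real.pi) + D.Th2' y + D.Th2' (y + Real.pi) ≤ kd y

theorem KD_const {D : CD} {κ : ℝ} (h : ∀ y, D.Th1' y + D.Th1' (y + Real.pi) + D.Th2' y + D.Th2' (y + Real.pi) ≤ κ) :
    KD D (fun _ => κ) := ⟨continuous_const, fun _ => rfl, h⟩

theorem KD_sum {D : CD} (i1 : IA D.Th1 D.Th1') (i2 : IA D.Th2 D.Th2') : KD D (kd0 D) := by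
  refine ⟨?_, fun y => ?_, fun y => le_rfl⟩
  · exact ((i1.hc.add (i1.hc.comp (continuous_id.add continuous_const))).add i2.hc).add
      (i2.hc.comp (continuous_id.add continuous_const))
  · have e : y + Real.pi + Real.pi = y + 2 * Real.pi := by ring
    have pt : ∀ {Θ t : ℝ → ℝ}, (∀ x, HasDerivAt Θ (t x) x) → (∀ x, Θ (x + 2 * Real.pi) = Θ x + 2 * Real.pi) →
        ∀ x, t (x + 2 * Real.pi) = t x := by
      intro Θ t h q x
      have e1 : HasDerivAt (fun y => Θ (y + 2 * Real.pi)) (t (x + 2 * Real.pi)) x :=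
        (h (x + 2 * Real.pi)).comp_add_const x (2 * Real.pi)
      have e2 : HasDerivAt (fun y => Θ (y + 2 * Real.pi)) (t x) x := by
        have : (fun y => Θ (y + 2 * Real.pi)) = fun y => Θ y + 2 * Real.pi := funext q
        rw [this]
        exact (h x).add_const _
      exact e1.unique e2
    unfold kd0
    rw [e, pt i1.hd i1.per, pt i2.hd i2.per]
    ring

end Pool.Agent.Helper75.SH
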