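import Pool.Agent.Helper75.SH.HTD
import Pool.Agent.Helper95.SH.Head

/-!
# Project RC, SHARP, cell engine, head/tail reduction: the moments of the tail, the `H` part of the tail

`WT`: the rows `W_l` of two finite arrays. `WT_eM`: they are the aligned moments of the trigonometric polynomials.
`WT_sum`: summable. `WT_bessel`: the rows `≥ k0` by means. `HkL_row`, `HkL_sum`: the `H` part.
-/

open MeasureTheory Set Filter Topology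

namespace Pool.Agent.Helper75.SH

open Helper49.LT hiding sg
open Helper49.RC (om)
open Helper95.RC
open Helper49.Sharp
open Helper41.SH (IA inv)
open Helper95.SH
open Helper87.RC (BM)
open Helper56.RC (fc)
open Pool.Agent.Helper20.RC (lk lk_ge lk_sq eM)
open Pool.Agent.Helper17.RC (WOK mX mY densW_inv_const eM_tail_tsum row_le)

/-- the rows `W_l` of two finite arrays, `l = 2k + 2` -/
noncomputable def WT (Θ1 Θ1' Θ2 Θ2' : ℝ → ℝ) (M : ℕ) (a1 a2 : ℤ → ℂ) (k : ℕ) : ℂ :=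
  wF Θ1 Θ1' M a1 (2 * k + 2) + wF Θ2 Θ2' M a2 (2 * k + 2)

/-- the trigonometric polynomial of an array -/
noncomputable def tpM (M : ℕ) (a : ℤ → ℂ) : ℝ → ℂ := tp (Finset.Icc (-(M : ℤ)) M) a

section

variable {Θ1 Θ1' Θ2 Θ2' : ℝ → ℝ} {κ : ℝ}

theorem tpM_bm (M : ℕ) (a : ℤ → ℂ) : ∃ C, BM (tpM M a) C := ⟨_, tp_BM _ _⟩

theorem tpM_bm2 (M : ℕ) (a1 a2 : ℤ → ℂ) : ∃ C, BM (tpM M a1) C ∧ BM (tpM M a2) C := by
  obtain ⟨C1, h1⟩ := tpM_bm M a1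
  obtain ⟨C2, h2⟩ := tpM_bm M a2
  exact ⟨max C1 C2, ⟨h1.m, fun t => (h1.b t).trans (le_max_left _ _)⟩, ⟨h2.m, fun t => (h2.b t).trans (le_max_right _ _)⟩⟩

theorem tpM_sup (M : ℕ) (a : ℤ → ℂ) : Sup M (fc (tpM M a)) := by
  intro n hn
  unfold tpM
  rw [fc_tp, if_neg hn]

theorem eF_tp (φ : ℝ → ℝ) (M : ℕ) (a : ℤ → ℂ) (l : ℤ) : eF φ M (fc (tpM M a)) l = eF φ M a l := by
  unfold eF mF mG
  congr 1
  · congr 1
    refine Finset.sum_congr rfl fun n hn => ?_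
    unfold tpM
    rw [fc_tp, if_pos hn]
  · congr 1
    refine Finset.sum_congr rfl fun n hn => ?_
    unfold tpM
    rw [fc_tp, if_pos hn]

/-- the rows are the aligned moments -/
theorem WT_eM (h1 : IA Θ1 Θ1') (h2 : IA Θ2 Θ2') (M : ℕ) (a1 a2 : ℤ → ℂ) (k : ℕ) :
    eM (tpM M a1) (tpM M a2) (inv Θ1) (inv Θ2) (lk k) = ((lk k : ℂ) ^ 2 - 1) * WT Θ1 Θ1' Θ2 Θ2' M a1 a2 k := by
  obtain ⟨C1, k1⟩ := tpM_bm M a1
  obtain ⟨C2, k2⟩ := tpM_bm M a2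
  have e := eM_fin k1 k2 h1.inv_meas h2.inv_meas (tpM_sup M a1) (tpM_sup M a2) (2 * k + 2)
  rw [eF_tp, eF_tp, eF_inv h1 _ _ (even_two_mul_add k), eF_inv h2 _ _ (even_two_mul_add k)] at e
  have h3 := lk_int k
  rw [h3]
  rw [e]
  unfold WT
  push_cast
  ring

theorem WT_sq (h1 : IA Θ1 Θ1') (h2 : IA Θ2 Θ2') (M : ℕ) (a1 a2 : ℤ → ℂ) (k : ℕ) :
    (lk k ^ 2 - 1) * ‖WT Θ1 Θ1' Θ2 Θ2' M a1 a2 k‖ ^ 2 =
      ‖eM (tpM M a1) (tpM M a2) (inv Θ1) (inv Θ2) (lk k)‖ ^ 2 / (lk k ^ 2 - 1) := by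
  have hs := lk_sq k
  rw [WT_eM h1 h2]
  have e0 : ((lk k : ℂ) ^ 2 - 1) = ((lk k ^ 2 - 1 : ℝ) : ℂ) := by push_cast; rfl
  rw [e0, norm_mul, mul_pow, Complex.norm_real, Real.norm_eq_abs, sq_abs]
  have hs' := hs.ne'
  field_simp

theorem wok_inv (h1 : IA Θ1 Θ1') (h2 : IA Θ2 Θ2')
    (hs : ∀ x, Θ1' x + Θ1' (x + Real.pi) + Θ2' x + Θ2' (x + Real.pi) ≤ κ) :
    WOK (inv Θ1) (inv Θ2) (fun _ => κ / 2) (fun _ => κ / 2) (κ / 2) (κ / 2) := by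
  have hκ : 0 < κ := by
    have := hs 0
    have := h1.pos 0
    have := h1.pos (0 + Real.pi)
    have := h2.pos 0
    have := h2.pos (0 + Real.pi)
    linarith
  exact ⟨h1.inv_meas, h2.inv_meas, measurable_const, measurable_const, by positivity, fun _ => le_rfl, fun _ => le_rfl,
    fun _ => le_rfl, fun _ => le_rfl, densW_inv_const h1.hd h2.hd h1.hc h2.hc h1.pos h2.pos h1.per h2.per h1.left h2.left
      h1.inv_per h2.inv_per h1.inv_meas h2.inv_meas hs⟩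

theorem WT_sum (h1 : IA Θ1 Θ1') (h2 : IA Θ2 Θ2')
    (hs : ∀ x, Θ1' x + Θ1' (x + Real.pi) + Θ2' x + Θ2' (x + Real.pi) ≤ κ) (M : ℕ) (a1 a2 : ℤ → ℂ) :
    Summable fun k => (lk k ^ 2 - 1) * ‖WT Θ1 Θ1' Θ2 Θ2' M a1 a2 k‖ ^ 2 := by
  obtain ⟨C, k1, k2⟩ := tpM_bm2 M a1 a2
  exact ((wok_inv h1 h2 hs).summable k1 k2).congr fun k => (WT_sq h1 h2 M a1 a2 k).symm

/-- BESSEL for the rows `≥ k0` -/
theorem WT_bessel (h1 : IA Θ1 Θ1') (h2 : IA Θ2 Θ2')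
    (hs : ∀ x, Θ1' x + Θ1' (x + Real.pi) + Θ2' x + Θ2' (x + Real.pi) ≤ κ) (M : ℕ) (a1 a2 : ℤ → ℂ) (k0 : ℕ) :
    ∑' k : ℕ, (lk (k + k0) ^ 2 - 1) * ‖WT Θ1 Θ1' Θ2 Θ2' M a1 a2 (k + k0)‖ ^ 2 ≤
      1 / 2 * (lk k0 / (lk k0 - 1) * mY (tpM M a1) (tpM M a2) (inv Θ1) (inv Θ2) (fun _ => κ / 2) (fun _ => κ / 2)
        + 1 / (lk k0 - 1) * mX (tpM M a1) (tpM M a2) (inv Θ1) (inv Θ2) (fun _ => κ / 2) (fun _ => κ / 2)) := by
  obtain ⟨C, k1, k2⟩ := tpM_bm2 M a1 a2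
  have h := eM_tail_tsum k1 k2 (wok_inv h1 h2 hs) k0
  refine (le_of_eq ?_).trans h
  exact tsum_congr fun k => WT_sq h1 h2 M a1 a2 (k + k0)

end

/-! ### the `H` part -/

/-- the linear part of `H_l`, `l = 2k + 2`, through `α` -/
noncomputable def HkU (P : Par) (p r : ℤ → ℂ) (k : ℕ) : ℂ :=
  (alA P p r (2 * k + 2) / ((lk k : ℂ) + 1) - (starRingEnd ℂ) (alA P p r (-(2 * k + 2))) / ((lk k : ℂ) - 1)) / 2

theorem HkL_U (P : Par) (p r : ℤ → ℂ) {k : ℕ} (hk : k ≠ 0) : HkL P p r k = HkU P p r k := by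
  unfold HkL HkU dlL
  rw [if_neg (by omega), if_neg (by omega), one_mul, one_mul]

theorem HkL_zero (P : Par) (p r : ℤ → ℂ) : HkL P p r 0 = 0 := by
  unfold HkL dlL
  simp

theorem wm_herm {η : ℂ} {p : ℤ → ℂ} (hp : ∀ n, p (-n) = (starRingEnd ℂ) (p n)) (n : ℤ) :
    wm η p (-n) = (starRingEnd ℂ) (wm η p n) := by
  unfold wm
  rw [map_add, map_add, map_mul, map_mul, Complex.conj_conj, hp n, show -n - 2 = -(n + 2) by ring,
    show -n + 2 = -(n - 2) by ring, hp, hp]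
  ring

theorem HkU_eq {P : Par} {p r : ℤ → ℂ} (hp : ∀ n, p (-n) = (starRingEnd ℂ) (p n))
    (hr : ∀ n, r (-n) = (starRingEnd ℂ) (r n)) (k : ℕ) :
    ((lk k ^ 2 - 1 : ℝ) : ℂ) * HkU P p r k =
      -(wm P.eta p (2 * k + 2) - Complex.I * (lk k : ℂ) * (wm P.eta r (2 * k + 2) / 2)) := by
  have hk := lk_ge k
  have h1 : (lk k : ℂ) + 1 ≠ 0 := by
    have : (lk k : ℂ) + 1 = ((lk k + 1 : ℝ) : ℂ) := by push_cast; ring
    rw [this]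
    exact_mod_cast (by linarith : lk k + 1 ≠ 0)
  have h2 : (lk k : ℂ) - 1 ≠ 0 := by
    have : (lk k : ℂ) - 1 = ((lk k - 1 : ℝ) : ℂ) := by push_cast; ring
    rw [this]
    exact_mod_cast (by linarith : lk k - 1 ≠ 0)
  unfold HkU alA
  rw [wm_herm hp, wm_herm hr, map_add, map_mul, map_div₀, Complex.conj_conj, Complex.conj_conj, Complex.conj_I]
  have h3 : (starRingEnd ℂ) 2 = 2 := Complex.conj_ofReal 2
  rw [h3]
  push_cast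
  field_simp
  ring

/-- one row of the `H` part -/
theorem HkU_row {P : Par} {p r : ℤ → ℂ} (hp : ∀ n, p (-n) = (starRingEnd ℂ) (p n))
    (hr : ∀ n, r (-n) = (starRingEnd ℂ) (r n)) {k : ℕ} {L0 : ℝ} (h0 : 1 < L0) (hL : L0 ≤ lk k) :
    (lk k ^ 2 - 1) * ‖HkU P p r k‖ ^ 2 ≤ L0 / (4 * (L0 - 1)) * ‖wm P.eta r (2 * k + 2)‖ ^ 2
      + 1 / (L0 - 1) * ‖wm P.eta p (2 * k + 2)‖ ^ 2 := by
  have hs := lk_sq k
  have e1 : (lk k ^ 2 - 1) * ‖HkU P p r k‖ ^ 2 =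
      ‖((lk k ^ 2 - 1 : ℝ) : ℂ) * HkU P p r k‖ ^ 2 / (lk k ^ 2 - 1) := by
    rw [norm_mul, mul_pow, Complex.norm_real, Real.norm_eq_abs, sq_abs]
    have hs' := hs.ne'
    field_simp
  rw [e1, HkU_eq hp hr, norm_neg]
  have h := row_le (wm P.eta p (2 * k + 2)) (wm P.eta r (2 * k + 2) / 2) h0 hL
  refine h.trans (le_of_eq ?_)
  rw [norm_div, div_pow]
  have : ‖(2 : ℂ)‖ = 2 := by simp
  rw [this]
  have h4 : L0 - 1 ≠ 0 := by linarith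
  field_simp
  ring

/-- tail arrays: `wm` vanishes for `|n| ≤ L - 2` -/
theorem wm_tail0 {η : ℂ} {L : ℕ} {p : ℤ → ℂ} (h : ∀ n : ℤ, |n| ≤ L → p n = 0) {n : ℤ} (hn : |n| + 2 ≤ L) :
    wm η p n = 0 := by
  unfold wm
  have a := abs_le.1 (le_refl |n|)
  rw [h n (by linarith), h (n - 2) (abs_le.2 (by constructor <;> linarith)),
    h (n + 2) (abs_le.2 (by constructor <;> linarith))]
  ring

/-- half of the mass of a hermitian array -/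
theorem half_sum {M : ℕ} {u : ℤ → ℂ} (hu : ∀ n, u (-n) = (starRingEnd ℂ) (u n)) (S : Finset ℕ)
    (hS : ∀ k ∈ S, (2 * (k : ℤ) + 2) ≤ M) :
    ∑ k ∈ S, ‖u (2 * k + 2)‖ ^ 2 ≤ 1 / 2 * ∑ n ∈ Finset.Icc (-(M : ℤ)) M, ‖u n‖ ^ 2 := by
  have e1 : ∑ k ∈ S, ‖u (2 * k + 2)‖ ^ 2 = ∑ n ∈ S.image (fun k : ℕ => 2 * (k : ℤ) + 2), ‖u n‖ ^ 2 := by
    rw [Finset.sum_image]
    intro a _ b _ h
    have : 2 * (a : ℤ) + 2 = 2 * (b : ℤ) + 2 := h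
    omega
  have e2 : ∑ k ∈ S, ‖u (2 * k + 2)‖ ^ 2 = ∑ n ∈ S.image (fun k : ℕ => -(2 * (k : ℤ) + 2)), ‖u n‖ ^ 2 := by
    rw [Finset.sum_image]
    · refine Finset.sum_congr rfl fun k _ => ?_
      rw [hu, Complex.norm_conj]
    · intro a _ b _ h
      have : -(2 * (a : ℤ) + 2) = -(2 * (b : ℤ) + 2) := h
      omega
  have hd : Disjoint (S.image (fun k : ℕ => 2 * (k : ℤ) + 2)) (S.image (fun k : ℕ => -(2 * (k : ℤ) + 2))) := by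
    rw [Finset.disjoint_left]
    intro n h1 h2
    rw [Finset.mem_image] at h1 h2
    obtain ⟨a, _, ha⟩ := h1
    obtain ⟨b, _, hb⟩ := h2
    omega
  have hsub : S.image (fun k : ℕ => 2 * (k : ℤ) + 2) ∪ S.image (fun k : ℕ => -(2 * (k : ℤ) + 2)) ⊆
      Finset.Icc (-(M : ℤ)) M := by
    intro n hn
    rw [Finset.mem_union, Finset.mem_image, Finset.mem_image] at hn
    rw [Finset.mem_Icc]
    rcases hn with ⟨k, hk, h⟩ | ⟨k, hk, h⟩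
    · have := hS k hk
      omega
    · have := hS k hk
      omega
  have h := Finset.sum_le_sum_of_subset_of_nonneg hsub fun n _ _ => sq_nonneg ‖u n‖
  rw [Finset.sum_union hd, ← e1, ← e2] at h
  linarith

/-- `H` rows vanish for `l < L` -/
theorem HkL_low {P : Par} {L : ℕ} {p r : ℤ → ℂ} (hp : ∀ n : ℤ, |n| ≤ L → p n = 0) (hr : ∀ n : ℤ, |n| ≤ L → r n = 0)
    {k : ℕ} (hk : 2 * k + 2 + 2 ≤ L) : HkL P p r k = 0 := by
  by_cases h0 : k = 0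
  · subst h0; exact HkL_zero P p r
  rw [HkL_U P p r h0]
  have a : |(2 * (k : ℤ) + 2)| = 2 * (k : ℤ) + 2 := abs_of_nonneg (by positivity)
  have a1 : |(2 * (k : ℤ) + 2)| + 2 ≤ L := by rw [a]; omega
  have a2 : |-(2 * (k : ℤ) + 2)| + 2 ≤ L := by rw [abs_neg]; exact a1
  unfold HkU alA
  rw [wm_tail0 hp a1, wm_tail0 hp a2, wm_tail0 hr a1, wm_tail0 hr a2]
  simp

/-- `H` rows vanish for large `l` -/
theorem HkL_high {P : Par} {N : ℕ} {p r : ℤ → ℂ} (hp : Sup N p) (hr : Sup N r) {k : ℕ} (hk : N + 2 < 2 * k + 2) :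
    HkL P p r k = 0 := by
  have h0 : k ≠ 0 := by omega
  rw [HkL_U P p r h0]
  have a1 : (2 * (k : ℤ) + 2) ∉ Finset.Icc (-((N + 2 : ℕ) : ℤ)) ((N + 2 : ℕ) : ℤ) := by
    rw [Finset.mem_Icc]; push_cast; omega
  have a2 : -(2 * (k : ℤ) + 2) ∉ Finset.Icc (-((N + 2 : ℕ) : ℤ)) ((N + 2 : ℕ) : ℤ) := by
    rw [Finset.mem_Icc]; push_cast; omega
  unfold HkU alA
  rw [wm_sup hp _ a1, wm_sup hp _ a2, wm_sup hr _ a1, wm_sup hr _ a2]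
  simp

theorem HkL_summable {P : Par} {N : ℕ} {p r : ℤ → ℂ} (hp : Sup N p) (hr : Sup N r) :
    Summable fun k => (lk k ^ 2 - 1) * ‖HkL P p r k‖ ^ 2 := by
  refine summable_of_ne_finset_zero (s := Finset.range (N + 2)) fun k hk => ?_
  rw [Finset.mem_range] at hk
  rw [HkL_high hp hr (by omega), norm_zero]
  ring

/-- **THE `H` PART OF THE TAIL** -/
theorem H_part {P : Par} {L N : ℕ} {p r : ℤ → ℂ} {be : ℕ → ℝ} {b0 bL : ℝ} (hL4 : 4 ≤ L) (hLe : Even L)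
    (sp : Sup N p) (sr : Sup N r) (hp : ∀ n, p (-n) = (starRingEnd ℂ) (p n)) (hr : ∀ n, r (-n) = (starRingEnd ℂ) (r n))
    (zp : ∀ n : ℤ, |n| ≤ L → p n = 0) (zr : ∀ n : ℤ, |n| ≤ L → r n = 0)
    (h0 : 0 ≤ b0) (hb0 : ∀ k, L < 2 * k + 2 → be k ≤ b0) (hbL : ∀ k, 2 * k + 2 = L → be k ≤ bL) (h0L : b0 ≤ bL) :
    ∑' k : ℕ, be k * ((lk k ^ 2 - 1) * ‖HkL P p r k‖ ^ 2) ≤
      b0 / 2 * ((L : ℝ) / (4 * (L - 1)) * ∑ n ∈ Finset.Icc (-((N + 2 : ℕ) : ℤ)) ((N + 2 : ℕ) : ℤ), ‖wm P.eta r n‖ ^ 2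
        + 1 / ((L : ℝ) - 1) * ∑ n ∈ Finset.Icc (-((N + 2 : ℕ) : ℤ)) ((N + 2 : ℕ) : ℤ), ‖wm P.eta p n‖ ^ 2)
      + (bL - b0) * ‖P.eta‖ ^ 2 * ((L : ℝ) / (4 * (L - 1)) * ‖r (L + 2)‖ ^ 2 + 1 / ((L : ℝ) - 1) * ‖p (L + 2)‖ ^ 2) := by
  have hL1 : (1 : ℝ) < L := by exact_mod_cast (by omega : 1 < L)
  have cR : 0 ≤ (L : ℝ) / (4 * (L - 1)) := div_nonneg (by linarith) (by linarith)
  have cP : 0 ≤ 1 / ((L : ℝ) - 1) := div_nonneg zero_le_one (by linarith)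
  obtain ⟨kL, hkL⟩ : ∃ k : ℕ, 2 * k + 2 = L := by
    obtain ⟨j, hj⟩ := hLe
    exact ⟨j - 1, by omega⟩
  set f : ℕ → ℝ := fun k => (lk k ^ 2 - 1) * ‖HkL P p r k‖ ^ 2 with hf
  have f0 : ∀ k, 0 ≤ f k := fun k => mul_nonneg (lk_sq k).le (sq_nonneg _)
  have fz : ∀ k, 2 * k + 2 < L → f k = 0 := by
    intro k hk
    obtain ⟨j, hj⟩ := hLe
    show (lk k ^ 2 - 1) * ‖HkL P p r k‖ ^ 2 = 0
    rw [HkL_low zp zr (by omega), norm_zero]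
    ring
  have fh : ∀ k, N + 2 < 2 * k + 2 → f k = 0 := by
    intro k hk
    show (lk k ^ 2 - 1) * ‖HkL P p r k‖ ^ 2 = 0
    rw [HkL_high sp sr hk, norm_zero]
    ring
  have fr : ∀ k, L ≤ 2 * k + 2 → f k ≤ (L : ℝ) / (4 * (L - 1)) * ‖wm P.eta r (2 * k + 2)‖ ^ 2
      + 1 / ((L : ℝ) - 1) * ‖wm P.eta p (2 * k + 2)‖ ^ 2 := by
    intro k hk
    have hk0 : k ≠ 0 := by omega
    show (lk k ^ 2 - 1) * ‖HkL P p r k‖ ^ 2 ≤ _
    rw [HkL_U P p r hk0]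
    refine HkU_row hp hr hL1 ?_
    unfold lk
    exact_mod_cast hk
  set S := (Finset.range (N + 2)).filter fun k => L ≤ 2 * k + 2 ∧ 2 * k + 2 ≤ N + 2 with hS
  have e1 : ∑' k : ℕ, be k * f k = ∑ k ∈ S, be k * f k := by
    refine tsum_eq_sum fun k hk => ?_
    rw [hS, Finset.mem_filter, Finset.mem_range] at hk
    by_cases h1 : 2 * k + 2 < L
    · rw [fz k h1, mul_zero]
    · rw [fh k (by omega), mul_zero]
  have e2 : ∀ k ∈ S, be k * f k ≤ b0 * f k + (if k = kL then (bL - b0) * f k else 0) := by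
    intro k hk
    rw [hS, Finset.mem_filter] at hk
    by_cases h1 : k = kL
    · rw [if_pos h1]
      have := mul_le_mul_of_nonneg_right (hbL k (by omega)) (f0 k)
      linarith
    · rw [if_neg h1, add_zero]
      exact mul_le_mul_of_nonneg_right (hb0 k (by omega)) (f0 k)
  have e3 : ∑ k ∈ S, b0 * f k ≤ b0 / 2 * ((L : ℝ) / (4 * (L - 1)) *
        ∑ n ∈ Finset.Icc (-((N + 2 : ℕ) : ℤ)) ((N + 2 : ℕ) : ℤ), ‖wm P.eta r n‖ ^ 2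
        + 1 / ((L : ℝ) - 1) * ∑ n ∈ Finset.Icc (-((N + 2 : ℕ) : ℤ)) ((N + 2 : ℕ) : ℤ), ‖wm P.eta p n‖ ^ 2) := by
    have i1 : ∑ k ∈ S, f k ≤ ∑ k ∈ S, ((L : ℝ) / (4 * (L - 1)) * ‖wm P.eta r (2 * k + 2)‖ ^ 2
      + 1 / ((L : ℝ) - 1) * ‖wm P.eta p (2 * k + 2)‖ ^ 2) := Finset.sum_le_sum fun k hk => by
        rw [hS, Finset.mem_filter] at hk
        exact fr k hk.2.1
    rw [Finset.sum_add_distrib, ← Finset.mul_sum, ← Finset.mul_sum] at i1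
    have hSN : ∀ k ∈ S, (2 * (k : ℤ) + 2) ≤ ((N + 2 : ℕ) : ℤ) := by
      intro k hk
      rw [hS, Finset.mem_filter] at hk
      have := hk.2.2
      push_cast
      omega
    have i2 := half_sum (M := N + 2) (wm_herm (η := P.eta) hr) S hSN
    have i3 := half_sum (M := N + 2) (wm_herm (η := P.eta) hp) S hSN
    have i4 := mul_le_mul_of_nonneg_left i2 cR
    have i5 := mul_le_mul_of_nonneg_left i3 cP
    rw [← Finset.mul_sum]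
    have i6 : ∑ k ∈ S, f k ≤ 1 / 2 * ((L : ℝ) / (4 * (L - 1)) *
        ∑ n ∈ Finset.Icc (-((N + 2 : ℕ) : ℤ)) ((N + 2 : ℕ) : ℤ), ‖wm P.eta r n‖ ^ 2
        + 1 / ((L : ℝ) - 1) * ∑ n ∈ Finset.Icc (-((N + 2 : ℕ) : ℤ)) ((N + 2 : ℕ) : ℤ), ‖wm P.eta p n‖ ^ 2) := by
      linarith
    have i7 := mul_le_mul_of_nonneg_left i6 h0
    linarith
  have e4 : ∑ k ∈ S, (if k = kL then (bL - b0) * f k else 0) ≤ (bL - b0) * ‖P.eta‖ ^ 2 *
      ((L : ℝ) / (4 * (L - 1)) * ‖r (L + 2)‖ ^ 2 + 1 / ((L : ℝ) - 1) * ‖p (L + 2)‖ ^ 2) := by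
    have hd : 0 ≤ bL - b0 := by linarith
    have j1 : ∑ k ∈ S, (if k = kL then (bL - b0) * f k else 0) ≤ (bL - b0) * f kL := by
      rw [Finset.sum_ite_eq' S kL]
      split_ifs
      · exact le_rfl
      · exact mul_nonneg hd (f0 _)
    have hw : ∀ {u : ℤ → ℂ}, (∀ n : ℤ, |n| ≤ L → u n = 0) →
        ‖wm P.eta u (2 * (kL : ℤ) + 2)‖ ^ 2 = ‖P.eta‖ ^ 2 * ‖u (L + 2)‖ ^ 2 := by
      intro u hu
      have hk : (2 * (kL : ℤ) + 2) = L := by exact_mod_cast hkL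
      rw [hk]
      unfold wm
      rw [hu L (by rw [abs_of_nonneg (by positivity)]), hu ((L : ℤ) - 2) (by rw [abs_of_nonneg (by omega)]; omega),
        mul_zero, zero_add, zero_add, norm_mul, Complex.norm_conj, mul_pow]
    have j2 := fr kL (by omega)
    rw [hw zr, hw zp] at j2
    have j3 := mul_le_mul_of_nonneg_left j2 hd
    refine j1.trans (j3.trans (le_of_eq ?_))
    ring
  rw [e1]
  refine (Finset.sum_le_sum e2).trans ?_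
  rw [Finset.sum_add_distrib]
  exact add_le_add e3 e4

end Pool.Agent.Helper75.SH
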