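import Pool.Agent.Helper75.SH.HTZ
import Pool.Agent.Helper70.SH.Asm
import Pool.Agent.Helper56.SH.TSG
import Pool.Agent.Helper51.SH.Low
import Pool.Agent.Helper76.SH.Kap

/-!
# Project RC, SHARP, cell engine, head/tail reduction: `HTok` from the data of a record

`WtR`: the weights (naturals over `1000`, lists of the rows `j < k1`, `l = 2j + 2`). `okW`: the kernel check.
`HTok_of`: the conditions of the reduction.
-/

set_option autoImplicit false

open MeasureTheory Set Filter Topology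

namespace Pool.Agent.Helper75.SH

open Helper49.LT hiding sg
open Helper49.Sharp Helper49.Cell
open Helper41.SH (IA inv)
open Helper95.SH (CD Arr TlKL pV rV sV GI)
open Helper56.RC (fc)
open Helper70.SH (cd LocH Len TailH)
open Helper76.RC.TrD (Th Th')
open Pool.Agent.Helper56.TS (TI)
open Pool.Agent.Helper20.RC (lk lk_ge lk_sq)

/-- weights: `al, be, ga` over `1000` for the rows `j < al.length`, `alI, beI, gaI` for the others, `bL` over `1000`,
`dl` over `10^5` with `dl² ≤ 1 - 9 k² / 4` -/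
structure WtR where
  k0 : ℕ
  M0 : ℕ
  al : List ℕ
  be : List ℕ
  ga : List ℕ
  alI : ℕ
  beI : ℕ
  gaI : ℕ
  bL : ℕ
  dl : ℕ

/-- number of the listed rows -/
def WtR.k1 (W : WtR) : ℕ := W.al.length

/-- one row -/
def okRow (L k0 bL be ga j a b g : ℕ) : Bool :=
  decide (0 < a ∧ 0 < b ∧ 0 < g ∧
    (1000 * (a * b + b * g + a * g) ≤ a * b * g ∨ (2 * j + 2 < L ∧ 1000 * (a + g) ≤ a * g)) ∧
    (2 * j + 2 ≤ L ∨ 100 * b ≤ be) ∧ (2 * j + 2 ≠ L ∨ b ≤ bL) ∧ (j < k0 ∨ 100 * g ≤ ga))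

/-- the listed rows -/
def okRows (L k0 bL be ga : ℕ) : ℕ → List ℕ → List ℕ → List ℕ → Bool
  | j, a :: as, b :: bs, g :: gs => bif okRow L k0 bL be ga j a b g then okRows L k0 bL be ga (Nat.succ j) as bs gs else false
  | _, [], [], [] => true
  | _, _, _, _ => false

/-- **the kernel check of the weights** -/
def okW (R : Rec) (T : TI) (W : WtR) : Bool :=
  bif okRows T.L W.k0 W.bL T.be T.ga 0 W.al W.be W.ga then
    decide (0 < W.alI ∧ 0 < W.beI ∧ 0 < W.gaI ∧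
      1000 * (W.alI * W.beI + W.beI * W.gaI + W.alI * W.gaI) ≤ W.alI * W.beI * W.gaI ∧
      100 * W.beI ≤ T.be ∧ 100 * W.gaI ≤ T.ga ∧ T.be ≤ 100 * W.bL ∧ T.l0 = 2 * W.k0 + 2 ∧
      W.k0 ≤ W.ga.length ∧ T.K % 2 = 1 ∧ T.L % 2 = 0 ∧ 12 ≤ W.M0 ∧ W.M0 + 2 ≤ T.K ∧ W.M0 + 2 ≤ T.L ∧
      0 < W.dl ∧ 4 * ((W.dl : ℤ) * W.dl) + 9 * (R.k * R.k) ≤ 40000000000 ∧ 5 * R.k.natAbs ≤ 200000 ∧
      10000000000 ≤ T.kap * W.dl ∧ 0 < T.th ∧ 0 < T.tz ∧
      (100 * W.bL - T.be : ℤ) * (R.e1 * R.e1 + R.e2 * R.e2) < (T.t2 : ℤ) * ((T.L : ℤ) - 1) * R.nu * 100000 ∧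
      (100 * W.bL - T.be : ℤ) * (R.e1 * R.e1 + R.e2 * R.e2) * T.L < (T.t3 : ℤ) * (4 * ((T.L : ℤ) - 1)) * R.nu * 100000)
  else false

/-- the weights as functions -/
noncomputable def WtR.alf (W : WtR) (j : ℕ) : ℝ := (W.al.getD j W.alI : ℕ) / 1000
noncomputable def WtR.bef (W : WtR) (j : ℕ) : ℝ := (W.be.getD j W.beI : ℕ) / 1000
noncomputable def WtR.gaf (W : WtR) (j : ℕ) : ℝ := (W.ga.getD j W.gaI : ℕ) / 1000
/-- a bound of the weights -/
noncomputable def WtR.A (W : WtR) : ℝ :=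
  ((W.al.sum + W.alI + (W.be.sum + W.beI) + (W.ga.sum + W.gaI) : ℕ) : ℝ) / 1000

theorem okRows_sound {L k0 bL be ga : ℕ} (as bs gs : List ℕ) (j : ℕ) (h : okRows L k0 bL be ga j as bs gs = true) :
    as.length = bs.length ∧ as.length = gs.length ∧ ∀ i, i < as.length → ∀ x y z : ℕ,
      okRow L k0 bL be ga (j + i) (as.getD i x) (bs.getD i y) (gs.getD i z) = true := by
  induction as generalizing bs gs j with
  | nil =>
    cases bs with
    | nil =>
      cases gs with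
      | nil => exact ⟨rfl, rfl, fun i hi => absurd hi (by simp)⟩
      | cons g gs => simp [okRows] at h
    | cons b bs => simp [okRows] at h
  | cons a as ih =>
    cases bs with
    | nil => simp [okRows] at h
    | cons b bs =>
      cases gs with
      | nil => simp [okRows] at h
      | cons g gs =>
        unfold okRows at h
        rw [bif_iff] at h
        obtain ⟨h1, h2⟩ := h
        obtain ⟨e1, e2, h3⟩ := ih bs gs (Nat.succ j) h2
        refine ⟨by simp [e1], by simp [e2], fun i hi x y z => ?_⟩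
        cases i with
        | zero => simpa using h1
        | succ i =>
          have := h3 i (by simpa using hi) x y z
          have e : Nat.succ j + i = j + (i + 1) := by omega
          rw [e] at this
          simpa using this

theorem getD_le_sum (l : List ℕ) (d i : ℕ) : l.getD i d ≤ l.sum + d := by
  induction l generalizing i with
  | nil => simp
  | cons a l ih =>
    cases i with
    | zero => simp; omega
    | succ i =>
      have := ih i
      simp only [List.getD_cons_succ, List.sum_cons]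
      omega

/-- the conditions of the weights for every row -/
theorem okW_row {R : Rec} {T : TI} {W : WtR} (h : okW R T W = true) (j : ℕ) :
    0 < W.al.getD j W.alI ∧ 0 < W.be.getD j W.beI ∧ 0 < W.ga.getD j W.gaI ∧
    (1000 * (W.al.getD j W.alI * W.be.getD j W.beI + W.be.getD j W.beI * W.ga.getD j W.gaI
        + W.al.getD j W.alI * W.ga.getD j W.gaI) ≤ W.al.getD j W.alI * W.be.getD j W.beI * W.ga.getD j W.gaI ∨
      (2 * j + 2 < T.L ∧ 1000 * (W.al.getD j W.alI + W.ga.getD j W.gaI) ≤ W.al.getD j W.alI * W.ga.getD j W.gaI)) ∧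
    (2 * j + 2 ≤ T.L ∨ 100 * W.be.getD j W.beI ≤ T.be) ∧ (2 * j + 2 ≠ T.L ∨ W.be.getD j W.beI ≤ W.bL) ∧
    (j < W.k0 ∨ 100 * W.ga.getD j W.gaI ≤ T.ga) := by
  unfold okW at h
  rw [bif_iff] at h
  obtain ⟨h1, h2⟩ := h
  obtain ⟨e1, e2, h3⟩ := okRows_sound _ _ _ _ h1
  have h2 := of_decide_eq_true h2
  by_cases hj : j < W.al.length
  · have := h3 j hj W.alI W.beI W.gaI
    rw [zero_add] at this
    exact of_decide_eq_true this
  · have f1 : W.al.getD j W.alI = W.alI := List.getD_eq_default _ _ (by omega)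
    have f2 : W.be.getD j W.beI = W.beI := List.getD_eq_default _ _ (by omega)
    have f3 : W.ga.getD j W.gaI = W.gaI := List.getD_eq_default _ _ (by omega)
    rw [f1, f2, f3]
    obtain ⟨g1, g2, g3, g4, g5, g6, g7, -⟩ := h2
    refine ⟨g1, g2, g3, Or.inl g4, Or.inr g5, Or.inr ?_, Or.inr g6⟩
    omega

theorem okW_wI {W : WtR} (j : ℕ) (hj : W.k1 ≤ j) : W.alf j = (W.alI : ℝ) / 1000 := by
  unfold WtR.alf
  rw [List.getD_eq_default _ _ hj]

/-- the weight condition of a row in the reals -/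
theorem row3 {a b g : ℕ} (ha : 0 < a) (hb : 0 < b) (hg : 0 < g) (h : 1000 * (a * b + b * g + a * g) ≤ a * b * g) :
    1 / ((a : ℝ) / 1000) + 1 / ((b : ℝ) / 1000) + 1 / ((g : ℝ) / 1000) ≤ 1 := by
  have a0 : (0 : ℝ) < a := by exact_mod_cast ha
  have b0 : (0 : ℝ) < b := by exact_mod_cast hb
  have g0 : (0 : ℝ) < g := by exact_mod_cast hg
  have h' : 1000 * ((a : ℝ) * b + b * g + a * g) ≤ a * b * g := by exact_mod_cast h
  have e : 1 / ((a : ℝ) / 1000) + 1 / ((b : ℝ) / 1000) + 1 / ((g : ℝ) / 1000) =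
      1000 * ((a : ℝ) * b + b * g + a * g) / (a * b * g) := by
    field_simp
    ring
  rw [e, div_le_one (by positivity)]
  exact h'

theorem row2 {a g : ℕ} (ha : 0 < a) (hg : 0 < g) (h : 1000 * (a + g) ≤ a * g) :
    1 / ((a : ℝ) / 1000) + 1 / ((g : ℝ) / 1000) ≤ 1 := by
  have a0 : (0 : ℝ) < a := by exact_mod_cast ha
  have g0 : (0 : ℝ) < g := by exact_mod_cast hg
  have h' : 1000 * ((a : ℝ) + g) ≤ a * g := by exact_mod_cast h
  have e : 1 / ((a : ℝ) / 1000) + 1 / ((g : ℝ) / 1000) = 1000 * ((a : ℝ) + g) / (a * g) := by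
    field_simp
    ring
  rw [e, div_le_one (by positivity)]
  exact h'

/-- **the conditions of the reduction from a record** -/
theorem HTok_of {R : Rec} {C : Crt} (h : R.ok C = true) {K0 : ℕ} (len : Len R K0) (s : ℕ) (H : LocH) {T : TI}
    {W : WtR} (hW : okW R T W = true) {kd : ℝ → ℝ} (kok : KD (cd R h len s) kd) (ts : TSP T.tsc (cd R h len s) kd)
    {wl : ℕ → ℝ} (low : ∀ j, j < W.k0 → ∀ (M : ℕ) (a1 a2 : ℤ → ℂ), (∀ n : ℤ, |n| ≤ W.M0 → a1 n = 0) →
      (∀ n : ℤ, |n| ≤ W.M0 → a2 n = 0) →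
      ‖WT (Th 1000 R.D1) (Th' 1000 R.D1) (Th 1000 R.D2) (Th' 1000 R.D2) M a1 a2 j‖ ^ 2 ≤ wl j *
      (∑ n ∈ Finset.Icc (-(M : ℤ)) M, ‖a1 n‖ ^ 2 + ∑ n ∈ Finset.Icc (-(M : ℤ)) M, ‖a2 n‖ ^ 2))
    (dlow : (R.nu : ℝ) / 100000 / 2 * ∑ j ∈ Finset.range W.k0, W.gaf j * ((lk j ^ 2 - 1) * wl j)
      + 3 / 2 * (9 / 20) ^ W.M0 ≤ (T.dlow : ℝ) / 100000) :
    HTok (cd R h len s) T.tsc kd W.alf W.bef W.gaf wl W.A ((W.alI : ℝ) / 1000) ((W.bL : ℝ) / 1000)
      ((R.d : ℝ) / 100000) ((R.k : ℝ) / 100000) R.cb.ph ((W.dl : ℝ) / 100000) W.k0 W.k1 W.M0 := by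
  have k := Rec.ok_sound h
  have st := Rec.stat h H
  have hr := okW_row hW
  have hW' := hW
  unfold okW at hW'
  rw [bif_iff] at hW'
  obtain ⟨-, h2⟩ := hW'
  obtain ⟨g1, g2, g3, g4, g5, g6, g7, g8, g8', g9, g10, g11, g12, g13, g14, g15, g16, g17, g18, g19, g20, g21⟩ :=
    of_decide_eq_true h2
  have hν : (0 : ℝ) < R.nu := by
    have := k.nu0
    have e : R.cb.nu = (R.nu : ℝ) / 100000 := rfl
    rw [e] at this
    by_contra hc
    rw [not_lt] at hc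
    linarith
  have hνi : 0 < R.nu := by exact_mod_cast hν
  have hk : ∀ j, W.gaf j = ((W.ga.getD j W.gaI : ℕ) : ℝ) / 1000 := fun _ => rfl
  have cast : ∀ {x y : ℕ}, x ≤ y → (x : ℝ) ≤ y := fun h => by exact_mod_cast h
  refine
    { reg := st.reg
      i1 := k.i1
      i2 := k.i2
      a0 := fun n => ?_
      hf := fun x => ?_
      kok := kok
      ts := ts
      oK := Nat.odd_iff.2 g9
      eL := Nat.even_iff.2 g10
      ps := rfl
      del0 := ?_
      hdk := ?_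
      hk := ?_
      hkap := ?_
      hth := ?_
      m12 := g11
      mK := g12
      mL := g13
      l0 := g8
      pa := fun j => ?_
      pb := fun j => ?_
      pg := fun j => ?_
      ua := fun j => ?_
      ub := fun j => ?_
      ug := fun j => ?_
      w := fun j => ?_
      wI := fun j hj => (okW_wI j hj).le
      wb := fun j hj => ?_
      wL := fun j hj => ?_
      bb := ?_
      wg := fun j hj => ?_
      low := low
      dlow := dlow
      tz := ?_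
      t2 := ?_
      t3 := ?_ }
  · show fc (fun _ => (0 : ℂ)) n = 0
    rw [Helper87.RC.fc_eq]
    simp
  · show 17 / 20 - 4 / 5 * ‖R.cb.z0 (x + 2 * Real.pi)‖ ^ 2 = 17 / 20 - 4 / 5 * ‖R.cb.z0 x‖ ^ 2
    rw [show x + 2 * Real.pi = (x + Real.pi) + Real.pi by ring, k.pz, k.pz, neg_neg]
  · have : (0 : ℝ) < W.dl := by exact_mod_cast g14
    positivity
  · have : 4 * ((W.dl : ℝ) * W.dl) + 9 * ((R.k : ℝ) * R.k) ≤ 40000000000 := by exact_mod_cast g15
    have e1 : ((W.dl : ℝ) / 100000) ^ 2 = (W.dl : ℝ) * W.dl / 10000000000 := by ring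
    have e2 : ((R.k : ℝ) / 100000) ^ 2 = (R.k : ℝ) * R.k / 10000000000 := by ring
    rw [e1, e2]
    linarith
  · have h5 : 5 * ((R.k.natAbs : ℕ) : ℝ) ≤ 200000 := by exact_mod_cast g16
    have e2 : ((R.k.natAbs : ℕ) : ℝ) = |(R.k : ℝ)| := by rw [Nat.cast_natAbs]; push_cast; rfl
    rw [e2] at h5
    rw [abs_div, abs_of_pos (by norm_num : (0 : ℝ) < 100000)]
    linarith
  · have h5 : (10000000000 : ℝ) ≤ (T.kap : ℝ) * W.dl := by exact_mod_cast g17
    have h6 : (0 : ℝ) < W.dl := by exact_mod_cast g14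
    show ((W.dl : ℝ) / 100000)⁻¹ ≤ (T.kap : ℝ) / 100000
    rw [inv_div, div_le_div_iff₀ h6 (by norm_num)]
    linarith
  · show (0 : ℝ) < (T.th : ℝ) / 100000
    have : (0 : ℝ) < T.th := by exact_mod_cast g18
    positivity
  · have : (0 : ℝ) < ((W.al.getD j W.alI : ℕ) : ℝ) := by exact_mod_cast (hr j).1
    show (0 : ℝ) < ((W.al.getD j W.alI : ℕ) : ℝ) / 1000
    positivity
  · have : (0 : ℝ) < ((W.be.getD j W.beI : ℕ) : ℝ) := by exact_mod_cast (hr j).2.1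
    show (0 : ℝ) < ((W.be.getD j W.beI : ℕ) : ℝ) / 1000
    positivity
  · have : (0 : ℝ) < ((W.ga.getD j W.gaI : ℕ) : ℝ) := by exact_mod_cast (hr j).2.2.1
    show (0 : ℝ) < ((W.ga.getD j W.gaI : ℕ) : ℝ) / 1000
    positivity
  · show ((W.al.getD j W.alI : ℕ) : ℝ) / 1000 ≤ _
    refine div_le_div_of_nonneg_right (cast ?_) (by norm_num)
    have := getD_le_sum W.al W.alI j
    omega
  · show ((W.be.getD j W.beI : ℕ) : ℝ) / 1000 ≤ _
    refine div_le_div_of_nonneg_right (cast ?_) (by norm_num)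
    have := getD_le_sum W.be W.beI j
    omega
  · show ((W.ga.getD j W.gaI : ℕ) : ℝ) / 1000 ≤ _
    refine div_le_div_of_nonneg_right (cast ?_) (by norm_num)
    have := getD_le_sum W.ga W.gaI j
    omega
  · obtain ⟨p1, p2, p3, p4, -⟩ := hr j
    rcases p4 with p | ⟨p, q⟩
    · exact Or.inl (row3 p1 p2 p3 p)
    · exact Or.inr ⟨p, row2 p1 p3 q⟩
  · obtain ⟨-, -, -, -, p5, -⟩ := hr j
    have hj' : T.L < 2 * j + 2 := hj
    rcases p5 with p | p
    · omega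
    · have p' : 100 * ((W.be.getD j W.beI : ℕ) : ℝ) ≤ T.be := by exact_mod_cast p
      show ((W.be.getD j W.beI : ℕ) : ℝ) / 1000 ≤ (T.be : ℝ) / 100000
      linarith
  · obtain ⟨-, -, -, -, -, p6, -⟩ := hr j
    have hj' : 2 * j + 2 = T.L := hj
    rcases p6 with p | p
    · exact absurd hj' p
    · have p' : ((W.be.getD j W.beI : ℕ) : ℝ) ≤ W.bL := by exact_mod_cast p
      show ((W.be.getD j W.beI : ℕ) : ℝ) / 1000 ≤ (W.bL : ℝ) / 1000
      linarith
  · show (T.be : ℝ) / 100000 ≤ (W.bL : ℝ) / 1000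
    have : (T.be : ℝ) ≤ 100 * W.bL := by exact_mod_cast g7
    linarith
  · obtain ⟨-, -, -, -, -, -, p7⟩ := hr j
    rcases p7 with p | p
    · omega
    · have p' : 100 * ((W.ga.getD j W.gaI : ℕ) : ℝ) ≤ T.ga := by exact_mod_cast p
      show ((W.ga.getD j W.gaI : ℕ) : ℝ) / 1000 ≤ (T.ga : ℝ) / 100000
      linarith
  · show (0 : ℝ) < (T.tz : ℝ) / 100000
    have : (0 : ℝ) < T.tz := by exact_mod_cast g19
    positivity
  · have hL1 : (0 : ℝ) < (T.L : ℝ) - 1 := by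
      have : (14 : ℝ) ≤ T.L := by exact_mod_cast (by omega : 14 ≤ T.L)
      linarith
    have g : (100 * (W.bL : ℝ) - T.be) * ((R.e1 : ℝ) * R.e1 + R.e2 * R.e2) <
        (T.t2 : ℝ) * ((T.L : ℝ) - 1) * R.nu * 100000 := by exact_mod_cast g20
    show 0 < (T.t2 : ℝ) / 100000 - ((W.bL : ℝ) / 1000 - (T.be : ℝ) / 100000) * ‖R.par.eta‖ ^ 2
      / (((T.L : ℝ) - 1) * ((R.nu : ℝ) / 100000))
    rw [Helper70.SH.eta_sq, sub_pos, div_lt_iff₀ (by positivity)]
    have e1 : ((W.bL : ℝ) / 1000 - (T.be : ℝ) / 100000) * (((R.e1 : ℝ) * R.e1 + R.e2 * R.e2) / 10000000000) =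
        (100 * (W.bL : ℝ) - T.be) * ((R.e1 : ℝ) * R.e1 + R.e2 * R.e2) / 1000000000000000 := by ring
    have e2 : (T.t2 : ℝ) / 100000 * (((T.L : ℝ) - 1) * ((R.nu : ℝ) / 100000)) =
        ((T.t2 : ℝ) * ((T.L : ℝ) - 1) * R.nu * 100000) / 1000000000000000 := by ring
    rw [e1, e2]
    exact div_lt_div_of_pos_right g (by norm_num)
  · have hL1 : (0 : ℝ) < (T.L : ℝ) - 1 := by
      have : (14 : ℝ) ≤ T.L := by exact_mod_cast (by omega : 14 ≤ T.L)
      linarith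
    have g : (100 * (W.bL : ℝ) - T.be) * ((R.e1 : ℝ) * R.e1 + R.e2 * R.e2) * T.L <
        (T.t3 : ℝ) * (4 * ((T.L : ℝ) - 1)) * R.nu * 100000 := by exact_mod_cast g21
    show 0 < (T.t3 : ℝ) / 100000 - ((W.bL : ℝ) / 1000 - (T.be : ℝ) / 100000) * ‖R.par.eta‖ ^ 2 * T.L
      / (4 * ((T.L : ℝ) - 1) * ((R.nu : ℝ) / 100000))
    rw [Helper70.SH.eta_sq, sub_pos, div_lt_iff₀ (by positivity)]
    have e1 : ((W.bL : ℝ) / 1000 - (T.be : ℝ) / 100000) * (((R.e1 : ℝ) * R.e1 + R.e2 * R.e2) / 10000000000) * T.L =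
        (100 * (W.bL : ℝ) - T.be) * ((R.e1 : ℝ) * R.e1 + R.e2 * R.e2) * T.L / 1000000000000000 := by ring
    have e2 : (T.t3 : ℝ) / 100000 * (4 * ((T.L : ℝ) - 1) * ((R.nu : ℝ) / 100000)) =
        ((T.t3 : ℝ) * (4 * ((T.L : ℝ) - 1)) * R.nu * 100000) / 1000000000000000 := by ring
    rw [e1, e2]
    exact div_lt_div_of_pos_right g (by norm_num)

theorem okW_k0 {R : Rec} {T : TI} {W : WtR} (h : okW R T W = true) : W.k0 ≤ W.ga.length := by
  unfold okW at h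
  rw [bif_iff] at h
  obtain ⟨-, h2⟩ := h
  exact (of_decide_eq_true h2).2.2.2.2.2.2.2.2.1

/-- **the conditions of the reduction from the kernel checks** (low rows: helper51) -/
theorem HTok_rec {R : Rec} {C : Crt} (h : R.ok C = true) {K0 : ℕ} (len : Len R K0) (s : ℕ) (H : LocH) {T : TI}
    {W : WtR} (hW : okW R T W = true) {kd : ℝ → ℝ} (kok : KD (cd R h len s) kd) (ts : TSP T.tsc (cd R h len s) kd)
    {b s' ss : ℕ} {ps1 ps2 : List Helper54.RC.Fast.PF} {ts1 ts2 : List ℕ}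
    (hp1 : Pool.Agent.Helper51.SH.Tab b s' 1000 R.D1 ps1) (hp2 : Pool.Agent.Helper51.SH.Tab b s' 1000 R.D2 ps2)
    (h1 : Pool.Agent.Helper51.SH.okTR b s' 1000 R.D1 ps1 W.M0 ss ts1 = true)
    (h2 : Pool.Agent.Helper51.SH.okTR b s' 1000 R.D2 ps2 W.M0 ss ts2 = true)
    (h3 : Pool.Agent.Helper51.SH.okLow W.M0 ss R.nu.toNat 100000 1000 T.dlow 100000 W.k0 ts1 ts2 W.ga = true) :
    HTok (cd R h len s) T.tsc kd W.alf W.bef W.gaf (Pool.Agent.Helper51.SH.wl ss ts1 ts2) W.A ((W.alI : ℝ) / 1000)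
      ((W.bL : ℝ) / 1000) ((R.d : ℝ) / 100000) ((R.k : ℝ) / 100000) R.cb.ph ((W.dl : ℝ) / 100000) W.k0 W.k1 W.M0 := by
  have k := Rec.ok_sound h
  have hν : (0 : ℝ) < (R.nu : ℝ) / 100000 := k.nu0
  have hνi : 0 ≤ R.nu := by
    by_contra hc
    have : (R.nu : ℝ) < 0 := by exact_mod_cast (not_le.1 hc)
    linarith
  have hk0 := okW_k0 hW
  obtain ⟨q1, q2, q3⟩ := Pool.Agent.Helper51.SH.okLow_sound h3 (nu := (R.nu : ℝ) / 100000)
    (dlow := (T.dlow : ℝ) / 100000) (ga := W.gaf) hν.le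
    (by
      have e : ((R.nu.toNat : ℕ) : ℝ) = R.nu := by
        have : ((R.nu.toNat : ℕ) : ℤ) = R.nu := Int.toNat_of_nonneg hνi
        exact_mod_cast this
      rw [e]
      norm_num)
    (fun j hj => by
      have e : W.ga.getD j W.gaI = W.ga.getD j 0 := by
        rw [List.getD_eq_getElem _ _ (by omega), List.getD_eq_getElem _ _ (by omega)]
      show ((W.ga.getD j W.gaI : ℕ) : ℝ) / 1000 ≤ _
      rw [e]
      norm_num)
    (by norm_num)
  exact HTok_of h len s H hW kok ts (Pool.Agent.Helper51.SH.low_rows k.i1 k.i2 hp1 hp2 h1 h2 q1 q2) q3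

/-- the constant density -/
theorem kd_rec {R : Rec} {C : Crt} (h : R.ok C = true) {K0 : ℕ} (len : Len R K0) (s : ℕ) {T : TI}
    {b r K s' δ : ℕ} {q : Helper54.RC.Fast.FP} (hr : r ≤ b + 1)
    (hu : Helper76.RC.TrD.okUp b r K 1000 s' δ (Helper76.RC.TrD.evL R.D1 R.D2) q = true)
    (hk : 200000 + 100 * (s' + δ) ≤ T.kap4) : KD (cd R h len s) (fun _ => T.tsc.kap4) := by
  refine KD_const fun y => ?_
  have h1 := Helper76.RC.TrD.kap4_of b r K 1000 s' δ R.D1 R.D2 q hr hu y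
  refine h1.trans ?_
  show _ ≤ (T.kap4 : ℝ) / 100000
  have h2 : 200000 + 100 * ((s' : ℝ) + δ) ≤ T.kap4 := by exact_mod_cast hk
  push_cast
  linarith

/-- the tables of helper76's chain, no condition on the value -/
theorem tab_opt {b r s sE M Q R n τ : ℕ} {l : List (ℤ × ℤ)} {ws : List ℕ} (hr : r ≤ b + 1) (hs : s ≤ b) :
    Pool.Agent.Helper51.SH.Tab b s Q l ((Helper76.RC.TrD.ejC b r s sE M Q R n τ 1 l ws).getD []).reverse := by
  cases h : Helper76.RC.TrD.ejC b r s sE M Q R n τ 1 l ws with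
  | none =>
    intro i p hp
    simp at hp
  | some res => exact Pool.Agent.Helper51.SH.tab_ejC hr hs h

/-- **ALL CONDITIONS OF THE REDUCTION FROM KERNEL CHECKS**, constant density (symbol: helper56, slopes: helper76,
low rows: helper51) -/
theorem HTok_all {R : Rec} {C : Crt} (h : R.ok C = true) {K0 : ℕ} (len : Len R K0) (s : ℕ) (H : LocH) {T : TI}
    {W : WtR} (hW : okW R T W = true) {TCt : Pool.Agent.Helper56.TS.TC}
    (hT : Pool.Agent.Helper56.TS.okTS R T TCt = true)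
    {ub ur uK us uδ : ℕ} {uq : Helper54.RC.Fast.FP} (hr : ur ≤ ub + 1)
    (hu : Helper76.RC.TrD.okUp ub ur uK 1000 us uδ (Helper76.RC.TrD.evL R.D1 R.D2) uq = true)
    (hk : 200000 + 100 * (us + uδ) ≤ T.kap4)
    {b s' ss : ℕ} {ps1 ps2 : List Helper54.RC.Fast.PF} {ts1 ts2 : List ℕ}
    (hp1 : Pool.Agent.Helper51.SH.Tab b s' 1000 R.D1 ps1) (hp2 : Pool.Agent.Helper51.SH.Tab b s' 1000 R.D2 ps2)
    (h1 : Pool.Agent.Helper51.SH.okTR b s' 1000 R.D1 ps1 W.M0 ss ts1 = true)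
    (h2 : Pool.Agent.Helper51.SH.okTR b s' 1000 R.D2 ps2 W.M0 ss ts2 = true)
    (h3 : Pool.Agent.Helper51.SH.okLow W.M0 ss R.nu.toNat 100000 1000 T.dlow 100000 W.k0 ts1 ts2 W.ga = true) :
    HTok (cd R h len s) T.tsc (fun _ => T.tsc.kap4) W.alf W.bef W.gaf (Pool.Agent.Helper51.SH.wl ss ts1 ts2) W.A
      ((W.alI : ℝ) / 1000) ((W.bL : ℝ) / 1000) ((R.d : ℝ) / 100000) ((R.k : ℝ) / 100000) R.cb.ph
      ((W.dl : ℝ) / 100000) W.k0 W.k1 W.M0 :=
  HTok_rec h len s H hW (kd_rec h len s hr hu hk)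
    (TS_TSP (Pool.Agent.Helper56.TS.TS_of hT (Rec.ok_sound h) (cd R h len s) rfl rfl rfl rfl rfl rfl rfl rfl))
    hp1 hp2 h1 h2 h3

/-- **THE TAIL THEOREM OF A RECORD** in the form of helper70's wrapper -/
theorem tailH {D : CD} {T : TI} {kd : ℝ → ℝ} {al be ga wl : ℕ → ℝ} {A alI bL d k ph del : ℝ} {k0 k1 M0 : ℕ}
    (o : HTok D T.tsc kd al be ga wl A alI bL d k ph del k0 k1 M0) (J1 J2 : ℕ) (hM : D.K0 ≤ max T.K T.L)
    {HF PT FR : (ℕ → ℝ) → ℝ}
    (hPT : ∀ v : ℕ → ℝ, v 0 = 1 → ∑' j : ℕ, (lk (j + k1) ^ 2 - 1) *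
      ‖Helper95.SH.qk D (max T.K T.L) (pV T.K T.L v) (rV T.K T.L v) (sV T.K v) (j + k1)‖ ^ 2 ≤ PT v)
    (hFR : ∀ (N : ℕ) (v : ℕ → ℝ), v 0 = 1 →
      FARR D T.tsc bL J1 J2 N (max T.K T.L) (pV T.K T.L v) (rV T.K T.L v) (sV T.K v) ≤ FR v)
    (hHF : ∀ v : ℕ → ℝ, v 0 = 1 → HF v ≤ HH D T.tsc al bL k1 J1 J2 (max T.K T.L) (pV T.K T.L v) (rV T.K T.L v)
      (sV T.K v) - 2 / D.P.nu * (alI * PT v) - FR v) :
    TailH D T.K T.L (max T.K T.L) HF := o.final J1 J2 hM hPT hFR hHF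

end Pool.Agent.Helper75.SH
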