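import Pool.Agent.Helper95.SH.Cell
import Pool.Agent.Helper17.RC.TailQ

/-!
# Project RC, SHARP, cell engine, head/tail reduction: the series (D2)

`norm3`, `norm2w`: Young with weights. `D_split`: the series with a head row, the `H` part and the `W` part of the tail,
weights free per row.
-/

open MeasureTheory Set Filter Topology

namespace Pool.Agent.Helper75.SH

open Pool.Agent.Helper20.RC (lk lk_ge lk_sq)

/-- three weights -/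
theorem norm3 (x y z : ℂ) {a b c : ℝ} (ha : 0 < a) (hb : 0 < b) (hc : 0 < c) (h : 1 / a + 1 / b + 1 / c ≤ 1) :
    ‖x + y + z‖ ^ 2 ≤ a * ‖x‖ ^ 2 + b * ‖y‖ ^ 2 + c * ‖z‖ ^ 2 := by
  have h1 : ‖x + y + z‖ ≤ ‖x‖ + ‖y‖ + ‖z‖ := (norm_add_le _ _).trans (add_le_add (norm_add_le _ _) le_rfl)
  have h2 := pow_le_pow_left₀ (norm_nonneg _) h1 2
  refine h2.trans ?_
  set X := ‖x‖
  set Y := ‖y‖
  set Z := ‖z‖
  have e : (1 / a + 1 / b + 1 / c) * (a * X ^ 2 + b * Y ^ 2 + c * Z ^ 2) - (X + Y + Z) ^ 2 =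
      (a * X - b * Y) ^ 2 / (a * b) + (a * X - c * Z) ^ 2 / (a * c) + (b * Y - c * Z) ^ 2 / (b * c) := by
    field_simp
    ring
  have p1 : 0 ≤ (a * X - b * Y) ^ 2 / (a * b) := by positivity
  have p2 : 0 ≤ (a * X - c * Z) ^ 2 / (a * c) := by positivity
  have p3 : 0 ≤ (b * Y - c * Z) ^ 2 / (b * c) := by positivity
  have p4 : (1 / a + 1 / b + 1 / c) * (a * X ^ 2 + b * Y ^ 2 + c * Z ^ 2) ≤
      1 * (a * X ^ 2 + b * Y ^ 2 + c * Z ^ 2) := mul_le_mul_of_nonneg_right h (by positivity)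
  linarith

/-- two weights -/
theorem norm2 (x z : ℂ) {a c : ℝ} (ha : 0 < a) (hc : 0 < c) (h : 1 / a + 1 / c ≤ 1) :
    ‖x + z‖ ^ 2 ≤ a * ‖x‖ ^ 2 + c * ‖z‖ ^ 2 := by
  have h2 := pow_le_pow_left₀ (norm_nonneg _) (norm_add_le x z) 2
  refine h2.trans ?_
  set X := ‖x‖
  set Z := ‖z‖
  have e : (1 / a + 1 / c) * (a * X ^ 2 + c * Z ^ 2) - (X + Z) ^ 2 = (a * X - c * Z) ^ 2 / (a * c) := by
    field_simp
    ring
  have p2 : 0 ≤ (a * X - c * Z) ^ 2 / (a * c) := by positivity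
  have p4 : (1 / a + 1 / c) * (a * X ^ 2 + c * Z ^ 2) ≤
      1 * (a * X ^ 2 + c * Z ^ 2) := mul_le_mul_of_nonneg_right h (by positivity)
  linarith

/-- admissible weights of a row: `al` for the head, `be` for the `H` part, `ga` for the `W` part of the tail -/
structure RW (H : ℕ → ℂ) (al be ga : ℕ → ℝ) (A : ℝ) : Prop where
  pa : ∀ k, 0 < al k
  pb : ∀ k, 0 < be k
  pg : ∀ k, 0 < ga k
  ua : ∀ k, al k ≤ A
  ub : ∀ k, be k ≤ A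
  ug : ∀ k, ga k ≤ A
  w : ∀ k, 1 / al k + 1 / be k + 1 / ga k ≤ 1 ∨ (H k = 0 ∧ 1 / al k + 1 / ga k ≤ 1)

section

variable {q H W : ℕ → ℂ} {al be ga : ℕ → ℝ} {A ν : ℝ}

theorem RW.row (w : RW H al be ga A) (k : ℕ) : ‖q k + (H k - (ν / 2 : ℂ) * W k)‖ ^ 2 ≤
    al k * ‖q k‖ ^ 2 + be k * ‖H k‖ ^ 2 + ν ^ 2 / 4 * (ga k * ‖W k‖ ^ 2) := by
  have e1 : ‖-((ν / 2 : ℂ) * W k)‖ ^ 2 = ν ^ 2 / 4 * ‖W k‖ ^ 2 := by
    have : (ν / 2 : ℂ) = ((ν / 2 : ℝ) : ℂ) := by push_cast; rfl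
    rw [norm_neg, norm_mul, mul_pow, this, Complex.norm_real, Real.norm_eq_abs, sq_abs]
    ring
  rcases w.w k with h | ⟨h0, h⟩
  · have := norm3 (q k) (H k) (-((ν / 2 : ℂ) * W k)) (w.pa k) (w.pb k) (w.pg k) h
    rw [e1] at this
    have e : q k + (H k - (ν / 2 : ℂ) * W k) = q k + H k + -((ν / 2 : ℂ) * W k) := by ring
    rw [e]
    linarith
  · have := norm2 (q k) (-((ν / 2 : ℂ) * W k)) (w.pa k) (w.pg k) h
    rw [e1] at this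
    have e : q k + (H k - (ν / 2 : ℂ) * W k) = q k + -((ν / 2 : ℂ) * W k) := by rw [h0]; ring
    rw [e, h0, norm_zero]
    have h0' : be k * (0 : ℝ) ^ 2 = 0 := by ring
    rw [h0']
    linarith

theorem smw {f : ℕ → ℝ} {al : ℕ → ℝ} {A : ℝ} (pa : ∀ k, 0 < al k) (ua : ∀ k, al k ≤ A) (pf : ∀ k, 0 ≤ f k)
    (s : Summable f) : Summable fun k => al k * f k :=
  Summable.of_nonneg_of_le (fun k => mul_nonneg (pa k).le (pf k))
    (fun k => mul_le_mul_of_nonneg_right (ua k) (pf k)) (s.mul_left A)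

/-- **the series (D2), head row and tail** -/
theorem D_split (w : RW H al be ga A) (sq : Summable fun k => (lk k ^ 2 - 1) * ‖q k‖ ^ 2)
    (sH : Summable fun k => (lk k ^ 2 - 1) * ‖H k‖ ^ 2) (sW : Summable fun k => (lk k ^ 2 - 1) * ‖W k‖ ^ 2) :
    ∑' k : ℕ, (lk k ^ 2 - 1) * ‖q k + (H k - (ν / 2 : ℂ) * W k)‖ ^ 2 ≤
      ∑' k : ℕ, al k * ((lk k ^ 2 - 1) * ‖q k‖ ^ 2) + ∑' k : ℕ, be k * ((lk k ^ 2 - 1) * ‖H k‖ ^ 2)
        + ν ^ 2 / 4 * ∑' k : ℕ, ga k * ((lk k ^ 2 - 1) * ‖W k‖ ^ 2) := by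
  have p : ∀ (f : ℕ → ℂ) k, 0 ≤ (lk k ^ 2 - 1) * ‖f k‖ ^ 2 := fun f k => mul_nonneg (lk_sq k).le (sq_nonneg _)
  have s1 := smw w.pa w.ua (p q) sq
  have s2 := smw w.pb w.ub (p H) sH
  have s3 := smw w.pg w.ug (p W) sW
  rw [← tsum_mul_left, ← s1.tsum_add s2, ← (s1.add s2).tsum_add (s3.mul_left _)]
  have key : ∀ k, (lk k ^ 2 - 1) * ‖q k + (H k - (ν / 2 : ℂ) * W k)‖ ^ 2 ≤
      al k * ((lk k ^ 2 - 1) * ‖q k‖ ^ 2) + be k * ((lk k ^ 2 - 1) * ‖H k‖ ^ 2)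
        + ν ^ 2 / 4 * (ga k * ((lk k ^ 2 - 1) * ‖W k‖ ^ 2)) := by
    intro k
    have := mul_le_mul_of_nonneg_left (w.row (q := q) (W := W) (ν := ν) k) (lk_sq k).le
    refine this.trans (le_of_eq ?_)
    ring
  have st := (s1.add s2).add (s3.mul_left (ν ^ 2 / 4))
  exact Summable.tsum_le_tsum key
    (Summable.of_nonneg_of_le (fun k => mul_nonneg (lk_sq k).le (sq_nonneg _)) key st) st

/-- rows `l ≥ 2 k1 + 2`: one weight -/
theorem split_tail {f al : ℕ → ℝ} {k1 : ℕ} {a1 A : ℝ} (pf : ∀ k, 0 ≤ f k) (s : Summable f) (pa : ∀ k, 0 < al k)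
    (ua : ∀ k, al k ≤ A) (h1 : ∀ k, k1 ≤ k → al k ≤ a1) :
    ∑' k : ℕ, al k * f k ≤ ∑ k ∈ Finset.range k1, al k * f k + a1 * ∑' k : ℕ, f (k + k1) := by
  have s1 := smw pa ua pf s
  rw [← s1.sum_add_tsum_nat_add k1, ← tsum_mul_left]
  have s2 := (summable_nat_add_iff k1).2 s
  refine add_le_add le_rfl (((summable_nat_add_iff k1).2 s1).tsum_le_tsum (fun k => ?_) (s2.mul_left a1))
  exact mul_le_mul_of_nonneg_right (h1 _ (Nat.le_add_left _ _)) (pf _)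

end

end Pool.Agent.Helper75.SH
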