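import Pool.Agent.Helper75.SH.HTT
import Pool.Agent.Helper95.SH.HeadT

/-!
# Project RC, SHARP, cell engine, head/tail reduction: the tail form through the pointwise symbol
-/

open MeasureTheory Set Filter Topology

namespace Pool.Agent.Helper75.SH

open Helper49.LT hiding sg
open Helper49.RC (om)
open Helper95.RC
open Helper49.Sharp
open Helper41.SH (IA inv)
open Helper95.SH hiding g1L g2L
open Helper87.RC (BM)
open Helper56.RC (fc)
open Pool.Agent.Helper20.RC (lk lk_ge lk_sq eM wR)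
open Pool.Agent.Helper17.RC (WOK mX mY)

/-- a bounded measurable function with its mean -/
structure ML (f : ℝ → ℝ) (v : ℝ) : Prop where
  br : BR f
  eq : mean f = v

theorem ML.of {f : ℝ → ℝ} (h : BR f) : ML f (mean f) := ⟨h, rfl⟩
theorem ML.add {f g : ℝ → ℝ} {a b : ℝ} (h : ML f a) (k : ML g b) : ML (fun x => f x + g x) (a + b) :=
  ⟨h.br.add k.br, by rw [mean_add h.br k.br, h.eq, k.eq]⟩
theorem ML.sub {f g : ℝ → ℝ} {a b : ℝ} (h : ML f a) (k : ML g b) : ML (fun x => f x - g x) (a - b) :=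
  ⟨h.br.sub k.br, by rw [mean_sub h.br k.br, h.eq, k.eq]⟩
theorem ML.cmul {f : ℝ → ℝ} {a : ℝ} (h : ML f a) (c : ℝ) : ML (fun x => c * f x) (c * a) :=
  ⟨h.br.cmul c, by rw [mean_cmul, h.eq]⟩
theorem ML.congr {f g : ℝ → ℝ} {a : ℝ} (h : ML f a) (e : ∀ x, g x = f x) : ML g a := by
  have : g = f := funext e
  rw [this]
  exact h

/-- half of the mass of an even nonnegative function -/
theorem half_neg (M : ℕ) {F : ℤ → ℝ} (h0 : ∀ n, 0 ≤ F n) (hF : ∀ n, F (-n) = F n) :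
    ∑ n ∈ Finset.Icc (-(M : ℤ)) M, (if n < 0 then F n else 0) ≤ 1 / 2 * ∑ n ∈ Finset.Icc (-(M : ℤ)) M, F n := by
  have e1 : ∑ n ∈ Finset.Icc (-(M : ℤ)) M, (if n < 0 then F n else 0) =
      ∑ n ∈ Finset.Icc (-(M : ℤ)) M, (if 0 < n then F n else 0) := by
    refine Finset.sum_nbij' (fun n => -n) (fun n => -n) ?_ ?_ ?_ ?_ ?_
    · intro n hn; rw [Finset.mem_Icc] at hn ⊢; omega
    · intro n hn; rw [Finset.mem_Icc] at hn ⊢; omega
    · intro n _; exact neg_neg n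
    · intro n _; exact neg_neg n
    · intro n _
      rw [hF]
      by_cases h : n < 0
      · rw [if_pos h, if_pos (by omega)]
      · rw [if_neg h, if_neg (by omega)]
  have e2 : ∑ n ∈ Finset.Icc (-(M : ℤ)) M, (if n < 0 then F n else 0)
      + ∑ n ∈ Finset.Icc (-(M : ℤ)) M, (if 0 < n then F n else 0) ≤ ∑ n ∈ Finset.Icc (-(M : ℤ)) M, F n := by
    rw [← Finset.sum_add_distrib]
    refine Finset.sum_le_sum fun n _ => ?_
    rcases lt_trichotomy n 0 with h | h | h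
    · rw [if_pos h, if_neg (by omega), add_zero]
    · rw [if_neg (by omega), if_neg (by omega), add_zero]; exact h0 n
    · rw [if_neg (by omega), if_pos h, zero_add]
  linarith

section

variable {P : Par} {N L : ℕ} {p r : ℤ → ℂ}

/-- parallelogram -/
theorem par_al (n : ℤ) : ‖alA P p r n‖ ^ 2 ≤ 2 * (‖wm P.eta p n‖ ^ 2 + 1 / 4 * ‖wm P.eta r n‖ ^ 2) := by
  unfold alA
  have h := pow_le_pow_left₀ (norm_nonneg _) (norm_add_le (wm P.eta p n) (Complex.I / 2 * wm P.eta r n)) 2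
  have e : ‖Complex.I / 2 * wm P.eta r n‖ = 1 / 2 * ‖wm P.eta r n‖ := by
    rw [norm_mul, norm_div, Complex.norm_I]
    simp
  rw [e] at h
  nlinarith [sq_nonneg (‖wm P.eta p n‖ - 1 / 2 * ‖wm P.eta r n‖)]

/-- link 1 on the tail -/
theorem L1_tail (hL : 4 ≤ L) (hLe : Even L) (hp : ∀ n, p (-n) = (starRingEnd ℂ) (p n))
    (hr : ∀ n, r (-n) = (starRingEnd ℂ) (r n)) (ep : ∀ n, ¬ Even n → p n = 0) (er : ∀ n, ¬ Even n → r n = 0)
    (zp : ∀ n : ℤ, |n| ≤ L → p n = 0) (zr : ∀ n : ℤ, |n| ≤ L → r n = 0) :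
    -(1 / ((L : ℝ) - 1) * (∑ n ∈ Finset.Icc (-((N + 2 : ℕ) : ℤ)) ((N + 2 : ℕ) : ℤ), ‖wm P.eta p n‖ ^ 2
      + 1 / 4 * ∑ n ∈ Finset.Icc (-((N + 2 : ℕ) : ℤ)) ((N + 2 : ℕ) : ℤ), ‖wm P.eta r n‖ ^ 2)) ≤
      ∑ n ∈ Finset.Icc (-((N + 2 : ℕ) : ℤ)) ((N + 2 : ℕ) : ℤ), ‖alA P p r n‖ ^ 2 / ((n : ℝ) + 1) := by
  have hL1 : (1 : ℝ) < L := by exact_mod_cast (by omega : 1 < L)
  have hd : 0 < (L : ℝ) - 1 := by linarith
  set F : ℤ → ℝ := fun n => 2 * (‖wm P.eta p n‖ ^ 2 + 1 / 4 * ‖wm P.eta r n‖ ^ 2) with hF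
  have hF0 : ∀ n, 0 ≤ F n := fun n => by rw [hF]; positivity
  have hFn : ∀ n, F (-n) = F n := fun n => by
    show 2 * (‖wm P.eta p (-n)‖ ^ 2 + 1 / 4 * ‖wm P.eta r (-n)‖ ^ 2) = _
    rw [wm_herm hp, wm_herm hr, Complex.norm_conj, Complex.norm_conj]
  have key : ∀ n : ℤ, -(1 / ((L : ℝ) - 1) * (if n < 0 then F n else 0)) ≤ ‖alA P p r n‖ ^ 2 / ((n : ℝ) + 1) := by
    intro n
    by_cases h : n < 0
    · rw [if_pos h]
      by_cases h2 : |n| + 2 ≤ L
      · have e : alA P p r n = 0 := by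
          unfold alA
          rw [wm_tail0 zp h2, wm_tail0 zr h2]
          ring
        rw [e, norm_zero]
        have : 0 ≤ 1 / ((L : ℝ) - 1) * F n := mul_nonneg (by positivity) (hF0 n)
        simp only [ne_eq, OfNat.ofNat_ne_zero, not_false_eq_true, zero_pow, zero_div]
        linarith
      · by_cases h3 : Even n
        · have h4 : n + 1 ≤ -((L : ℤ) - 1) := by
            obtain ⟨j, hj⟩ := hLe
            obtain ⟨i, hi⟩ := h3
            rw [abs_of_neg h] at h2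
            omega
          have h5 : (n : ℝ) + 1 ≤ -((L : ℝ) - 1) := by exact_mod_cast h4
          have h6 := par_al (P := P) (p := p) (r := r) n
          have h7 : 0 < -((n : ℝ) + 1) := by linarith
          have e : ‖alA P p r n‖ ^ 2 / ((n : ℝ) + 1) = -(‖alA P p r n‖ ^ 2 / (-((n : ℝ) + 1))) := by
            rw [div_neg, neg_neg]
          rw [e, neg_le_neg_iff, one_div_mul_eq_div]
          calc ‖alA P p r n‖ ^ 2 / (-((n : ℝ) + 1)) ≤ ‖alA P p r n‖ ^ 2 / ((L : ℝ) - 1) :=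
                div_le_div_of_nonneg_left (sq_nonneg _) hd (by linarith)
            _ ≤ F n / ((L : ℝ) - 1) := div_le_div_of_nonneg_right h6 hd.le
        · rw [alA_odd ep er h3, norm_zero]
          have : 0 ≤ 1 / ((L : ℝ) - 1) * F n := mul_nonneg (by positivity) (hF0 n)
          simp only [ne_eq, OfNat.ofNat_ne_zero, not_false_eq_true, zero_pow, zero_div]
          linarith
    · rw [if_neg h, mul_zero, neg_zero]
      have : (0 : ℝ) ≤ n := by exact_mod_cast (not_lt.1 h)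
      positivity
  have hs := Finset.sum_le_sum fun n (_ : n ∈ Finset.Icc (-((N + 2 : ℕ) : ℤ)) ((N + 2 : ℕ) : ℤ)) => key n
  refine le_trans ?_ hs
  rw [Finset.sum_neg_distrib, ← Finset.mul_sum, neg_le_neg_iff]
  refine mul_le_mul_of_nonneg_left ?_ (by positivity)
  refine (half_neg (N + 2) hF0 hFn).trans (le_of_eq ?_)
  rw [hF, ← Finset.mul_sum, Finset.sum_add_distrib, ← Finset.mul_sum]
  ring

/-- the mass of `w` times a real function -/
theorem par_w (sp : Sup N p) (hp : ∀ n, p (-n) = (starRingEnd ℂ) (p n)) :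
    ∑ n ∈ Finset.Icc (-((N + 2 : ℕ) : ℤ)) ((N + 2 : ℕ) : ℤ), ‖wm P.eta p n‖ ^ 2 =
      mean fun x => P.w x ^ 2 * (tpM N p x).re ^ 2 := by
  rw [par_tp]
  refine mean_congr fun x => ?_
  have hw : P.w = wR P.eta 0 0 := rfl
  rw [tpM_wm _ sp x, ← hw, tpM_real hp x, ← Complex.ofReal_mul, Complex.norm_real, Real.norm_eq_abs, sq_abs, mul_pow,
    Complex.ofReal_re]

theorem par_1 (hp : ∀ n, p (-n) = (starRingEnd ℂ) (p n)) :
    ∑ n ∈ Finset.Icc (-(N : ℤ)) N, ‖p n‖ ^ 2 = mean fun x => (tpM N p x).re ^ 2 := by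
  rw [par_tp]
  refine mean_congr fun x => ?_
  rw [tpM_real hp x, Complex.norm_real, Real.norm_eq_abs, sq_abs, Complex.ofReal_re]

theorem br_re' (N : ℕ) (p : ℤ → ℂ) : BR fun x => (tpM N p x).re := by
  obtain ⟨C, h⟩ := tpM_bm N p
  exact BR.re h

theorem sq_mean (hr : P.Reg) (sp : Sup N p) (hp : ∀ n, p (-n) = (starRingEnd ℂ) (p n)) :
    SQ (N + 2) P.eta p = mean fun x => P.w x * (tpM N p x).re ^ 2 := by
  have e : (fun t => (((tpM N p t).re : ℝ) : ℂ)) = tpM N p := funext fun t => (tpM_real hp t).symm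
  have h := mean_SQ hr (br_re' N p) (M := N) (by rw [e, fc_tpM sp]; exact sp)
  rw [e, fc_tpM sp] at h
  exact h.symm

theorem s1_mean (sp : Sup N p) (hp : ∀ n, p (-n) = (starRingEnd ℂ) (p n)) :
    S1Q N p = mean fun x => (tpM N p x).re ^ 2 := by
  have e : (fun t => (((tpM N p t).re : ℝ) : ℂ)) = tpM N p := funext fun t => (tpM_real hp t).symm
  have h := mean_S1 (M := N) (br_re' N p) (by rw [e, fc_tpM sp]; exact sp)
  rw [e, fc_tpM sp] at h
  exact h.symm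

theorem lq_mean {F : ℝ → ℝ} (hF : BR F) {s : ℤ → ℂ} (ss : Sup N s) :
    LQ N (fc fun t => (F t : ℂ)) s = mean fun x => F x * Lf (tpM N s x) := by
  obtain ⟨C, h⟩ := tpM_bm N s
  have h := mean_Lf hF h (M := N) (by rw [fc_tpM ss]; exact ss)
  rw [fc_tpM ss] at h
  exact h.symm

end

/-- parity -/
theorem tpM_even {N : ℕ} {p : ℤ → ℂ} (ep : ∀ n, ¬ Even n → p n = 0) (x : ℝ) :
    tpM N p (x + Real.pi) = tpM N p x := by
  rw [tpM_def, tpM_def]
  refine Finset.sum_congr rfl fun n _ => ?_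
  by_cases h : Even n
  · obtain ⟨j, hj⟩ := h
    have e : (n : ℝ) * (x + Real.pi) = (j : ℝ) * (2 * x + 2 * Real.pi) := by rw [hj]; push_cast; ring
    have e2 : (n : ℝ) * x = (j : ℝ) * (2 * x) := by rw [hj]; push_cast; ring
    rw [e, e2, ee_int j (2 * x)]
  · rw [ep n h, zero_mul, zero_mul]

theorem ee_pi : ee Real.pi = -1 := by
  unfold ee
  exact Complex.exp_pi_mul_I

theorem tpM_odd {N : ℕ} {s : ℤ → ℂ} (es : ∀ n, Even n → s n = 0) (x : ℝ) :
    tpM N s (x + Real.pi) = -tpM N s x := by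
  rw [tpM_def, tpM_def, ← Finset.sum_neg_distrib]
  refine Finset.sum_congr rfl fun n _ => ?_
  by_cases h : Even n
  · rw [es n h, zero_mul, zero_mul, neg_zero]
  · obtain ⟨j, hj⟩ := Int.not_even_iff_odd.1 h
    have e : (n : ℝ) * (x + Real.pi) = (j : ℝ) * (2 * x + 2 * Real.pi) + (x + Real.pi) := by rw [hj]; push_cast; ring
    have e2 : (n : ℝ) * x = (j : ℝ) * (2 * x) + x := by rw [hj]; push_cast; ring
    have e3 : ee (x + Real.pi) = -ee x := by
      rw [ee_add, ee_pi]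
      ring
    rw [e, e2, ee_add, e3, ee_add, ee_int j (2 * x)]
    ring

end Pool.Agent.Helper75.SH
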