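import Pool.Agent.Helper75.SH.HTT
import Pool.Agent.Helper75.SH.TSP

/-!
# Project RC, SHARP, cell engine, head/tail reduction: the families and the moments of the tail as means

`wok_kd`: the weights `kd (φ_j) / 2`. `WT_sumP`, `WT_besselP`, `priceP`: the moments of the tail with these weights.
-/

open MeasureTheory Set Filter Topology

namespace Pool.Agent.Helper75.SH

open Helper49.LT hiding sg
open Helper49.RC (om)
open Helper95.RC
open Helper49.Sharp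
open Helper41.SH (IA inv)
open Helper95.SH hiding g1L g2L
open Helper87.RC (BM)
open Helper56.RC (fc)
open Pool.Agent.Helper20.RC (lk lk_ge lk_sq eM wR)
open Pool.Agent.Helper17.RC (WOK mX mY densW_inv eM_tail_tsum)

section

variable {P : Par} {N : ℕ} {p r s : ℤ → ℂ}

theorem tpM_G1 (sp : Sup N p) (sr : Sup N r) (ss : Sup N s) (hp : ∀ n, p (-n) = (starRingEnd ℂ) (p n))
    (hr : ∀ n, r (-n) = (starRingEnd ℂ) (r n)) (x : ℝ) : tpM (N + 2) (G1L P p r s) x =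
      (P.w x : ℂ) * g1L (tpM N p x).re (tpM N r x).re (tpM N s x) := by
  have e : G1L P p r s = fun n => (starRingEnd ℂ) om * wm P.eta p n + kq 2 * wm P.eta r n + wm P.eta s n := rfl
  have hw : P.w = wR P.eta 0 0 := rfl
  rw [e, tpM_add, tpM_add, tpM_mul, tpM_mul]
  have e1 : tpM (N + 2) (fun n => wm P.eta p n) x = (wR P.eta 0 0 x : ℂ) * tpM N p x := tpM_wm _ sp x
  have e2 : tpM (N + 2) (fun n => wm P.eta r n) x = (wR P.eta 0 0 x : ℂ) * tpM N r x := tpM_wm _ sr x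
  have e3 : tpM (N + 2) (fun n => wm P.eta s n) x = (wR P.eta 0 0 x : ℂ) * tpM N s x := tpM_wm _ ss x
  rw [e1, e2, e3, hw]
  unfold g1L
  rw [← tpM_real hp, ← tpM_real hr]
  ring

theorem tpM_G2 (sp : Sup N p) (sr : Sup N r) (ss : Sup N s) (hp : ∀ n, p (-n) = (starRingEnd ℂ) (p n))
    (hr : ∀ n, r (-n) = (starRingEnd ℂ) (r n)) (x : ℝ) : tpM (N + 2) (G2L P p r s) x =
      (P.w x : ℂ) * g2L (tpM N p x).re (tpM N r x).re (tpM N s x) := by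
  have e : G2L P p r s = fun n => (starRingEnd ℂ) om ^ 2 * wm P.eta p n + (starRingEnd ℂ) (kq 2) * wm P.eta r n
      - wm P.eta s n := rfl
  have hw : P.w = wR P.eta 0 0 := rfl
  rw [e, tpM_sub, tpM_add, tpM_mul, tpM_mul]
  have e1 : tpM (N + 2) (fun n => wm P.eta p n) x = (wR P.eta 0 0 x : ℂ) * tpM N p x := tpM_wm _ sp x
  have e2 : tpM (N + 2) (fun n => wm P.eta r n) x = (wR P.eta 0 0 x : ℂ) * tpM N r x := tpM_wm _ sr x
  have e3 : tpM (N + 2) (fun n => wm P.eta s n) x = (wR P.eta 0 0 x : ℂ) * tpM N s x := tpM_wm _ ss x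
  rw [e1, e2, e3, hw]
  unfold g2L
  rw [← tpM_real hp, ← tpM_real hr]
  ring

/-- the family 1 of the tail -/
theorem tpM_C1 (sp : Sup N p) (sr : Sup N r) (ss : Sup N s) (hp : ∀ n, p (-n) = (starRingEnd ℂ) (p n))
    (hr : ∀ n, r (-n) = (starRingEnd ℂ) (r n)) (x : ℝ) : tpM (N + 3) (C1L P p r s) (x + Real.pi / 3) =
      ee x * ((P.w x : ℂ) * g1L (tpM N p x).re (tpM N r x).re (tpM N s x)) := by
  have e : C1L P p r s = fun m : ℤ => ee (-(m : ℝ) * (Real.pi / 3)) * G1L P p r s (m - 1) := funext fun m => C1L_eq m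
  have h := tpM_shift (G1L_sup sp sr ss (P := P)) (Real.pi / 3) (x + Real.pi / 3)
  rw [add_sub_cancel_right, tpM_G1 sp sr ss hp hr] at h
  rw [e]
  exact h

/-- the family 2 of the tail -/
theorem tpM_C2 (sp : Sup N p) (sr : Sup N r) (ss : Sup N s) (hp : ∀ n, p (-n) = (starRingEnd ℂ) (p n))
    (hr : ∀ n, r (-n) = (starRingEnd ℂ) (r n)) (x : ℝ) : tpM (N + 3) (C2L P p r s) (x + 2 * Real.pi / 3) =
      ee x * ((P.w x : ℂ) * g2L (tpM N p x).re (tpM N r x).re (tpM N s x)) := by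
  have e : C2L P p r s = fun m : ℤ => ee (-(m : ℝ) * (2 * Real.pi / 3)) * G2L P p r s (m - 1) :=
    funext fun m => C2L_eq m
  have h := tpM_shift (G2L_sup sp sr ss (P := P)) (2 * Real.pi / 3) (x + 2 * Real.pi / 3)
  rw [add_sub_cancel_right, tpM_G2 sp sr ss hp hr] at h
  rw [e]
  exact h

theorem tpM_per (M : ℕ) (a : ℤ → ℂ) (x : ℝ) : tpM M a (x + 2 * Real.pi) = tpM M a x := by
  rw [tpM_def, tpM_def]
  refine Finset.sum_congr rfl fun n _ => ?_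
  rw [ee_int n x]

/-- mass of the family -/
theorem mass_C1 (sp : Sup N p) (sr : Sup N r) (ss : Sup N s) (hp : ∀ n, p (-n) = (starRingEnd ℂ) (p n))
    (hr : ∀ n, r (-n) = (starRingEnd ℂ) (r n)) :
    ∑ m ∈ Finset.Icc (-((N + 3 : ℕ) : ℤ)) ((N + 3 : ℕ) : ℤ), ‖C1L P p r s m‖ ^ 2 =
      mean fun x => P.w x ^ 2 * ‖g1L (tpM N p x).re (tpM N r x).re (tpM N s x)‖ ^ 2 := by
  rw [par_tp, ← mean_sh (f := fun x => ‖tpM (N + 3) (C1L P p r s) x‖ ^ 2) (fun t => by rw [tpM_per]) (Real.pi / 3)]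
  refine mean_congr fun x => ?_
  rw [tpM_C1 sp sr ss hp hr, norm_mul, norm_mul, norm_ee, one_mul, mul_pow, Complex.norm_real, Real.norm_eq_abs, sq_abs]

theorem mass_C2 (sp : Sup N p) (sr : Sup N r) (ss : Sup N s) (hp : ∀ n, p (-n) = (starRingEnd ℂ) (p n))
    (hr : ∀ n, r (-n) = (starRingEnd ℂ) (r n)) :
    ∑ m ∈ Finset.Icc (-((N + 3 : ℕ) : ℤ)) ((N + 3 : ℕ) : ℤ), ‖C2L P p r s m‖ ^ 2 =
      mean fun x => P.w x ^ 2 * ‖g2L (tpM N p x).re (tpM N r x).re (tpM N s x)‖ ^ 2 := by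
  rw [par_tp, ← mean_sh (f := fun x => ‖tpM (N + 3) (C2L P p r s) x‖ ^ 2) (fun t => by rw [tpM_per]) (2 * Real.pi / 3)]
  refine mean_congr fun x => ?_
  rw [tpM_C2 sp sr ss hp hr, norm_mul, norm_mul, norm_ee, one_mul, mul_pow, Complex.norm_real, Real.norm_eq_abs, sq_abs]

end

/-- one family: the moments in terms of `|g|²` and `Re (g² conj v²)` -/
theorem ri_form (g v : ℂ) (hv : ‖v‖ = 1) (kY kX : ℝ) :
    kY * (g * (starRingEnd ℂ) v).im ^ 2 + kX * (g * (starRingEnd ℂ) v).re ^ 2 =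
      (kY + kX) / 2 * ‖g‖ ^ 2 - (kY - kX) / 2 * (g ^ 2 * (starRingEnd ℂ) v ^ 2).re := by
  have h1 : ‖g‖ ^ 2 = ‖g * (starRingEnd ℂ) v‖ ^ 2 := by
    rw [norm_mul, Complex.norm_conj, hv, mul_one]
  have h2 : g ^ 2 * (starRingEnd ℂ) v ^ 2 = (g * (starRingEnd ℂ) v) ^ 2 := by ring
  rw [h1, h2]
  generalize g * (starRingEnd ℂ) v = y
  have h3 : (y ^ 2).re = y.re * y.re - y.im * y.im := by rw [pow_two, Complex.mul_re]
  rw [← Complex.normSq_eq_norm_sq, Complex.normSq_apply, h3]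
  ring

section

variable {P : Par} {N : ℕ} {p r s : ℤ → ℂ} {Θ1 Θ1' Θ2 Θ2' : ℝ → ℝ}

/-- the tail edge -/
noncomputable def gt1 (N : ℕ) (p r s : ℤ → ℂ) (x : ℝ) : ℂ := g1L (tpM N p x).re (tpM N r x).re (tpM N s x)
noncomputable def gt2 (N : ℕ) (p r s : ℤ → ℂ) (x : ℝ) : ℂ := g2L (tpM N p x).re (tpM N r x).re (tpM N s x)
/-- the directions of the alignments -/
noncomputable def vt1 (Θ : ℝ → ℝ) (x : ℝ) : ℂ := ee (inv Θ (x + Real.pi / 3) - x)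
noncomputable def vt2 (Θ : ℝ → ℝ) (x : ℝ) : ℂ := ee (inv Θ (x + 2 * Real.pi / 3) - x)

theorem br_gt1 (N : ℕ) (p r s : ℤ → ℂ) : ∃ C, BM (gt1 N p r s) C := by
  obtain ⟨C1, h1⟩ := tpM_bm N p
  obtain ⟨C2, h2⟩ := tpM_bm N r
  obtain ⟨C3, h3⟩ := tpM_bm N s
  obtain ⟨D1, k1⟩ := br_bm (BR.re h1)
  obtain ⟨D2, k2⟩ := br_bm (BR.re h2)
  exact ⟨_, ((k1.cmul _).add (k2.cmul _)).add h3⟩

theorem br_gt2 (N : ℕ) (p r s : ℤ → ℂ) : ∃ C, BM (gt2 N p r s) C := by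
  obtain ⟨C1, h1⟩ := tpM_bm N p
  obtain ⟨C2, h2⟩ := tpM_bm N r
  obtain ⟨C3, h3⟩ := tpM_bm N s
  obtain ⟨D1, k1⟩ := br_bm (BR.re h1)
  obtain ⟨D2, k2⟩ := br_bm (BR.re h2)
  exact ⟨_, ((k1.cmul _).add (k2.cmul _)).sub h3⟩

theorem bm_vt1 (h : IA Θ1 Θ1') : BM (vt1 Θ1) 1 :=
  ⟨continuous_ee.measurable.comp ((h.inv_meas.comp (measurable_id.add_const _)).sub measurable_id),
    fun t => by unfold vt1; rw [norm_ee]⟩

theorem bm_vt2 (h : IA Θ2 Θ2') : BM (vt2 Θ2) 1 :=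
  ⟨continuous_ee.measurable.comp ((h.inv_meas.comp (measurable_id.add_const _)).sub measurable_id),
    fun t => by unfold vt2; rw [norm_ee]⟩

/-- value of one family -/
theorem fam_val (w x φ : ℝ) (g : ℂ) : ee x * ((w : ℂ) * g) * ee (-φ) = (w : ℂ) * (g * (starRingEnd ℂ) (ee (φ - x))) := by
  rw [← ee_neg, show -(φ - x) = x + -φ by ring, ee_add]
  ring

end

/-! ### pointwise density weights -/

/-- a continuous periodic function is bounded -/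
theorem per_bd {W : ℝ → ℝ} (c : Continuous W) (p : ∀ x, W (x + Real.pi) = W x) :
    ∃ a b, (∀ x, a ≤ W x) ∧ (∀ x, W x ≤ b) ∧ ((∀ x, 0 < W x) → 0 < a) := by
  have hp := Real.pi_pos
  have per : Function.Periodic W Real.pi := p
  obtain ⟨x0, _, hx0⟩ := (isCompact_Icc (a := (0 : ℝ)) (b := Real.pi)).exists_isMinOn
    ⟨0, by constructor <;> positivity⟩ c.continuousOn
  obtain ⟨x1, _, hx1⟩ := (isCompact_Icc (a := (0 : ℝ)) (b := Real.pi)).exists_isMaxOn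
    ⟨0, by constructor <;> positivity⟩ c.continuousOn
  have key : ∀ x, ∃ y ∈ Set.Icc (0 : ℝ) Real.pi, W x = W y := by
    intro x
    obtain ⟨y, hy, hxy⟩ := per.exists_mem_Ico₀ hp x
    exact ⟨y, ⟨hy.1, hy.2.le⟩, hxy⟩
  refine ⟨W x0, W x1, fun x => ?_, fun x => ?_, fun h => h x0⟩
  · obtain ⟨y, hy, h⟩ := key x
    rw [h]
    exact hx0 hy
  · obtain ⟨y, hy, h⟩ := key x
    rw [h]
    exact hx1 hy

section

variable {D : CD} {kd : ℝ → ℝ}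

theorem KD.pos (k : KD D kd) (i1 : IA D.Th1 D.Th1') (i2 : IA D.Th2 D.Th2') (y : ℝ) : 0 < kd y := by
  have := k.le y
  have := i1.pos y
  have := i1.pos (y + Real.pi)
  have := i2.pos y
  have := i2.pos (y + Real.pi)
  linarith

/-- the density weights at the angle -/
noncomputable def dW (kd Θ : ℝ → ℝ) (θ : ℝ) : ℝ := kd (inv Θ θ) / 2

theorem KD.br (k : KD D kd) : ∃ C, ∀ y, |kd y| ≤ C := by
  obtain ⟨a, b, ha, hb, _⟩ := per_bd k.c k.per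
  exact ⟨max |a| |b|, fun y => abs_le_max_abs_abs (ha y) (hb y)⟩

theorem KD.br1 (k : KD D kd) {Θ Θ' : ℝ → ℝ} (h : IA Θ Θ') : BR (dW kd Θ) := by
  obtain ⟨C, hC⟩ := k.br
  refine ⟨(k.c.measurable.comp h.inv_meas).div_const 2, C / 2, fun t => ?_⟩
  unfold dW
  rw [abs_div, abs_of_pos (by norm_num : (0 : ℝ) < 2)]
  have := hC (inv Θ t)
  linarith

theorem wok_kd (k : KD D kd) (i1 : IA D.Th1 D.Th1') (i2 : IA D.Th2 D.Th2') :
    ∃ a b, WOK (inv D.Th1) (inv D.Th2) (dW kd D.Th1) (dW kd D.Th2) a b := by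
  obtain ⟨a, b, ha, hb, h0⟩ := per_bd k.c k.per
  have hp := h0 (k.pos i1 i2)
  refine ⟨a / 2, b / 2, i1.inv_meas, i2.inv_meas, (k.c.measurable.comp i1.inv_meas).div_const 2,
    (k.c.measurable.comp i2.inv_meas).div_const 2, by linarith, fun t => ?_, fun t => ?_, fun t => ?_, fun t => ?_,
    densW_inv (W := fun y => kd y / 2) i1.hd i2.hd i1.hc i2.hc i1.pos i2.pos i1.per i2.per i1.left i2.left
      i1.inv_per i2.inv_per (k.c.div_const 2) (fun x => by have := k.pos i1 i2 x; positivity)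
      (fun x => by rw [k.per]) i1.inv_meas i2.inv_meas (fun x => by have := k.le x; linarith)⟩
  · unfold dW; linarith [ha (inv D.Th1 t)]
  · unfold dW; linarith [hb (inv D.Th1 t)]
  · unfold dW; linarith [ha (inv D.Th2 t)]
  · unfold dW; linarith [hb (inv D.Th2 t)]

/-- summability of the rows -/
theorem WT_sumP (k : KD D kd) (i1 : IA D.Th1 D.Th1') (i2 : IA D.Th2 D.Th2') (M : ℕ) (a1 a2 : ℤ → ℂ) :
    Summable fun j => (lk j ^ 2 - 1) * ‖WT D.Th1 D.Th1' D.Th2 D.Th2' M a1 a2 j‖ ^ 2 := by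
  obtain ⟨C, k1, k2⟩ := tpM_bm2 M a1 a2
  obtain ⟨a, b, w⟩ := wok_kd k i1 i2
  exact (w.summable k1 k2).congr fun j => (WT_sq i1 i2 M a1 a2 j).symm

/-- BESSEL for the rows `≥ k0` -/
theorem WT_besselP (k : KD D kd) (i1 : IA D.Th1 D.Th1') (i2 : IA D.Th2 D.Th2') (M : ℕ) (a1 a2 : ℤ → ℂ) (k0 : ℕ) :
    ∑' j : ℕ, (lk (j + k0) ^ 2 - 1) * ‖WT D.Th1 D.Th1' D.Th2 D.Th2' M a1 a2 (j + k0)‖ ^ 2 ≤
      1 / 2 * (lk k0 / (lk k0 - 1) * mY (tpM M a1) (tpM M a2) (inv D.Th1) (inv D.Th2) (dW kd D.Th1) (dW kd D.Th2)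
        + 1 / (lk k0 - 1) * mX (tpM M a1) (tpM M a2) (inv D.Th1) (inv D.Th2) (dW kd D.Th1) (dW kd D.Th2)) := by
  obtain ⟨C, k1, k2⟩ := tpM_bm2 M a1 a2
  obtain ⟨a, b, w⟩ := wok_kd k i1 i2
  have h := eM_tail_tsum k1 k2 w k0
  refine (le_of_eq ?_).trans h
  exact tsum_congr fun j => WT_sq i1 i2 M a1 a2 (j + k0)

/-- **THE MEANS OF THE MOMENTS OF THE TAIL**, pointwise densities -/
theorem priceP (k : KD D kd) (h1 : IA D.Th1 D.Th1') (h2 : IA D.Th2 D.Th2') (hw : BR D.P.w) {N : ℕ} {p r s : ℤ → ℂ}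
    (sp : Sup N p) (sr : Sup N r) (ss : Sup N s)
    (hp : ∀ n, p (-n) = (starRingEnd ℂ) (p n)) (hr : ∀ n, r (-n) = (starRingEnd ℂ) (r n)) (kY kX : ℝ) :
    kY * mY (tpM (N + 3) (C1L D.P p r s)) (tpM (N + 3) (C2L D.P p r s)) (inv D.Th1) (inv D.Th2)
        (dW kd D.Th1) (dW kd D.Th2)
      + kX * mX (tpM (N + 3) (C1L D.P p r s)) (tpM (N + 3) (C2L D.P p r s)) (inv D.Th1) (inv D.Th2)
        (dW kd D.Th1) (dW kd D.Th2) =
    mean (fun x => kd (inv D.Th1 (x + Real.pi / 3)) / 2 * (D.P.w x ^ 2 * ((kY + kX) / 2 * ‖gt1 N p r s x‖ ^ 2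
          - (kY - kX) / 2 * (gt1 N p r s x ^ 2 * (starRingEnd ℂ) (vt1 D.Th1 x) ^ 2).re)))
      + mean (fun x => kd (inv D.Th2 (x + 2 * Real.pi / 3)) / 2 * (D.P.w x ^ 2 * ((kY + kX) / 2 * ‖gt2 N p r s x‖ ^ 2
          - (kY - kX) / 2 * (gt2 N p r s x ^ 2 * (starRingEnd ℂ) (vt2 D.Th2 x) ^ 2).re))) := by
  obtain ⟨A1, a1⟩ := tpM_bm (N + 3) (C1L D.P p r s)
  obtain ⟨A2, a2⟩ := tpM_bm (N + 3) (C2L D.P p r s)
  have e1 : BM (fun θ => ee (-inv D.Th1 θ)) 1 :=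
    ⟨continuous_ee.measurable.comp h1.inv_meas.neg, fun t => by rw [norm_ee]⟩
  have e2 : BM (fun θ => ee (-inv D.Th2 θ)) 1 :=
    ⟨continuous_ee.measurable.comp h2.inv_meas.neg, fun t => by rw [norm_ee]⟩
  have f1 := a1.mul e1
  have f2 := a2.mul e2
  have bd1 := k.br1 h1
  have bd2 := k.br1 h2
  have key : (mY (tpM (N + 3) (C1L D.P p r s)) (tpM (N + 3) (C2L D.P p r s)) (inv D.Th1) (inv D.Th2)
      (dW kd D.Th1) (dW kd D.Th2)) =
      mean (fun θ => dW kd D.Th1 θ * (tpM (N + 3) (C1L D.P p r s) θ * ee (-inv D.Th1 θ)).im ^ 2)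
        + mean (fun θ => dW kd D.Th2 θ * (tpM (N + 3) (C2L D.P p r s) θ * ee (-inv D.Th2 θ)).im ^ 2) := by
    rw [← mean_add (bd1.mul (BR.im f1).sq) (bd2.mul (BR.im f2).sq)]
    rfl
  have key2 : (mX (tpM (N + 3) (C1L D.P p r s)) (tpM (N + 3) (C2L D.P p r s)) (inv D.Th1) (inv D.Th2)
      (dW kd D.Th1) (dW kd D.Th2)) =
      mean (fun θ => dW kd D.Th1 θ * (tpM (N + 3) (C1L D.P p r s) θ * ee (-inv D.Th1 θ)).re ^ 2)
        + mean (fun θ => dW kd D.Th2 θ * (tpM (N + 3) (C2L D.P p r s) θ * ee (-inv D.Th2 θ)).re ^ 2) := by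
    rw [← mean_add (bd1.mul (BR.re f1).sq) (bd2.mul (BR.re f2).sq)]
    rfl
  have kper : ∀ y, kd (y + 2 * Real.pi) = kd y := fun y => by
    rw [show y + 2 * Real.pi = (y + Real.pi) + Real.pi by ring, k.per, k.per]
  have dper : ∀ {Θ Θ' : ℝ → ℝ}, IA Θ Θ' → ∀ t, dW kd Θ (t + 2 * Real.pi) = dW kd Θ t := by
    intro Θ Θ' h t
    unfold dW
    rw [h.inv_per, kper]
  have per1 : ∀ t, tpM (N + 3) (C1L D.P p r s) (t + 2 * Real.pi) * ee (-inv D.Th1 (t + 2 * Real.pi)) =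
      tpM (N + 3) (C1L D.P p r s) t * ee (-inv D.Th1 t) := by
    intro t
    rw [tpM_per, h1.inv_per, show -(inv D.Th1 t + 2 * Real.pi) = ((-1 : ℤ) : ℝ) * (inv D.Th1 t + 2 * Real.pi) by
      push_cast; ring, ee_int (-1)]
    congr 2
    push_cast
    ring
  have per2 : ∀ t, tpM (N + 3) (C2L D.P p r s) (t + 2 * Real.pi) * ee (-inv D.Th2 (t + 2 * Real.pi)) =
      tpM (N + 3) (C2L D.P p r s) t * ee (-inv D.Th2 t) := by
    intro t
    rw [tpM_per, h2.inv_per, show -(inv D.Th2 t + 2 * Real.pi) = ((-1 : ℤ) : ℝ) * (inv D.Th2 t + 2 * Real.pi) by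
      push_cast; ring, ee_int (-1)]
    congr 2
    push_cast
    ring
  have v1 : ∀ x, tpM (N + 3) (C1L D.P p r s) (x + Real.pi / 3) * ee (-inv D.Th1 (x + Real.pi / 3)) =
      (D.P.w x : ℂ) * (gt1 N p r s x * (starRingEnd ℂ) (vt1 D.Th1 x)) := by
    intro x
    rw [tpM_C1 sp sr ss hp hr, fam_val]
    rfl
  have v2 : ∀ x, tpM (N + 3) (C2L D.P p r s) (x + 2 * Real.pi / 3) * ee (-inv D.Th2 (x + 2 * Real.pi / 3)) =
      (D.P.w x : ℂ) * (gt2 N p r s x * (starRingEnd ℂ) (vt2 D.Th2 x)) := by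
    intro x
    rw [tpM_C2 sp sr ss hp hr, fam_val]
    rfl
  have m1 : mean (fun θ => dW kd D.Th1 θ * (tpM (N + 3) (C1L D.P p r s) θ * ee (-inv D.Th1 θ)).im ^ 2) =
      mean (fun x => dW kd D.Th1 (x + Real.pi / 3) *
        (D.P.w x ^ 2 * (gt1 N p r s x * (starRingEnd ℂ) (vt1 D.Th1 x)).im ^ 2)) := by
    rw [← mean_sh (f := fun θ => dW kd D.Th1 θ * (tpM (N + 3) (C1L D.P p r s) θ * ee (-inv D.Th1 θ)).im ^ 2)
      (fun t => by rw [per1, dper h1]) (Real.pi / 3)]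
    refine mean_congr fun x => ?_
    rw [v1, Complex.im_ofReal_mul, mul_pow]
  have m2 : mean (fun θ => dW kd D.Th1 θ * (tpM (N + 3) (C1L D.P p r s) θ * ee (-inv D.Th1 θ)).re ^ 2) =
      mean (fun x => dW kd D.Th1 (x + Real.pi / 3) *
        (D.P.w x ^ 2 * (gt1 N p r s x * (starRingEnd ℂ) (vt1 D.Th1 x)).re ^ 2)) := by
    rw [← mean_sh (f := fun θ => dW kd D.Th1 θ * (tpM (N + 3) (C1L D.P p r s) θ * ee (-inv D.Th1 θ)).re ^ 2)
      (fun t => by rw [per1, dper h1]) (Real.pi / 3)]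
    refine mean_congr fun x => ?_
    rw [v1, Complex.re_ofReal_mul, mul_pow]
  have m3 : mean (fun θ => dW kd D.Th2 θ * (tpM (N + 3) (C2L D.P p r s) θ * ee (-inv D.Th2 θ)).im ^ 2) =
      mean (fun x => dW kd D.Th2 (x + 2 * Real.pi / 3) *
        (D.P.w x ^ 2 * (gt2 N p r s x * (starRingEnd ℂ) (vt2 D.Th2 x)).im ^ 2)) := by
    rw [← mean_sh (f := fun θ => dW kd D.Th2 θ * (tpM (N + 3) (C2L D.P p r s) θ * ee (-inv D.Th2 θ)).im ^ 2)
      (fun t => by rw [per2, dper h2]) (2 * Real.pi / 3)]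
    refine mean_congr fun x => ?_
    rw [v2, Complex.im_ofReal_mul, mul_pow]
  have m4 : mean (fun θ => dW kd D.Th2 θ * (tpM (N + 3) (C2L D.P p r s) θ * ee (-inv D.Th2 θ)).re ^ 2) =
      mean (fun x => dW kd D.Th2 (x + 2 * Real.pi / 3) *
        (D.P.w x ^ 2 * (gt2 N p r s x * (starRingEnd ℂ) (vt2 D.Th2 x)).re ^ 2)) := by
    rw [← mean_sh (f := fun θ => dW kd D.Th2 θ * (tpM (N + 3) (C2L D.P p r s) θ * ee (-inv D.Th2 θ)).re ^ 2)
      (fun t => by rw [per2, dper h2]) (2 * Real.pi / 3)]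
    refine mean_congr fun x => ?_
    rw [v2, Complex.re_ofReal_mul, mul_pow]
  obtain ⟨B1, b1⟩ := br_gt1 N p r s
  obtain ⟨B2, b2⟩ := br_gt2 N p r s
  have c1 := b1.mul (bm_vt1 h1).conj
  have c2 := b2.mul (bm_vt2 h2).conj
  have s1 := bd1.sh (Real.pi / 3)
  have s2 := bd2.sh (2 * Real.pi / 3)
  rw [key, key2, m1, m2, m3, m4]
  have n1 : mean (fun x => kd (inv D.Th1 (x + Real.pi / 3)) / 2 * (D.P.w x ^ 2 * ((kY + kX) / 2 * ‖gt1 N p r s x‖ ^ 2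
      - (kY - kX) / 2 * (gt1 N p r s x ^ 2 * (starRingEnd ℂ) (vt1 D.Th1 x) ^ 2).re))) =
      kY * mean (fun x => dW kd D.Th1 (x + Real.pi / 3) *
        (D.P.w x ^ 2 * (gt1 N p r s x * (starRingEnd ℂ) (vt1 D.Th1 x)).im ^ 2))
      + kX * mean (fun x => dW kd D.Th1 (x + Real.pi / 3) *
        (D.P.w x ^ 2 * (gt1 N p r s x * (starRingEnd ℂ) (vt1 D.Th1 x)).re ^ 2)) := by
    rw [← mean_cmul, ← mean_cmul, ← mean_add ((s1.mul (hw.sq.mul (BR.im c1).sq)).cmul _)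
      ((s1.mul (hw.sq.mul (BR.re c1).sq)).cmul _)]
    refine mean_congr fun x => ?_
    rw [← ri_form _ _ (by unfold vt1; rw [norm_ee])]
    unfold dW
    ring
  have n2 : mean (fun x => kd (inv D.Th2 (x + 2 * Real.pi / 3)) / 2 * (D.P.w x ^ 2 * ((kY + kX) / 2 * ‖gt2 N p r s x‖ ^ 2
      - (kY - kX) / 2 * (gt2 N p r s x ^ 2 * (starRingEnd ℂ) (vt2 D.Th2 x) ^ 2).re))) =
      kY * mean (fun x => dW kd D.Th2 (x + 2 * Real.pi / 3) *
        (D.P.w x ^ 2 * (gt2 N p r s x * (starRingEnd ℂ) (vt2 D.Th2 x)).im ^ 2))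
      + kX * mean (fun x => dW kd D.Th2 (x + 2 * Real.pi / 3) *
        (D.P.w x ^ 2 * (gt2 N p r s x * (starRingEnd ℂ) (vt2 D.Th2 x)).re ^ 2)) := by
    rw [← mean_cmul, ← mean_cmul, ← mean_add ((s2.mul (hw.sq.mul (BR.im c2).sq)).cmul _)
      ((s2.mul (hw.sq.mul (BR.re c2).sq)).cmul _)]
    refine mean_congr fun x => ?_
    rw [← ri_form _ _ (by unfold vt2; rw [norm_ee])]
    unfold dW
    ring
  rw [n1, n2]
  ring

end

end Pool.Agent.Helper75.SH
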