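import Pool.Agent.Helper75.SH.HTF
import Pool.Agent.Helper75.SH.HTM
import Pool.Agent.Helper95.SH.Win

/-!
# Project RC, SHARP, cell engine, head/tail reduction: the tail form

`TSS_ML`: the mean of the tail symbol on a tail. `TS_mean`: `TS` gives the metric. `tail_form`: the quadratic form of the
tail with the `H` part and the moments of the series (D2).
-/

open MeasureTheory Set Filter Topology

namespace Pool.Agent.Helper75.SH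

open Helper49.LT hiding sg
open Helper49.RC (om)
open Helper95.RC
open Helper49.Sharp
open Helper41.SH (IA inv)
open Helper95.SH hiding g1L g2L
open Helper87.RC (BM)
open Helper56.RC (fc)
open Pool.Agent.Helper20.RC (lk lk_ge lk_sq eM wR)
open Pool.Agent.Helper17.RC (WOK mX mY)

theorem ML.zero : ML (fun _ => 0) 0 := ⟨BR.const 0, by
  unfold mean
  simp⟩

theorem wP_per (P : Par) (x : ℝ) : P.w (x + 2 * Real.pi) = P.w x := by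
  have hw : P.w = wR P.eta 0 0 := rfl
  have h : ((P.w (x + 2 * Real.pi) : ℝ) : ℂ) = ((P.w x : ℝ) : ℂ) := by
    rw [hw, wR_c, wR_c, ee_int 2 x, ee_int (-2) x]
  exact_mod_cast h

theorem KD.br_at {D : CD} {kd : ℝ → ℝ} (k : KD D kd) {Θ Θ' : ℝ → ℝ} (h : IA Θ Θ') (a : ℝ) :
    BR fun x => kd (inv Θ (x + a)) / 4 := by
  have := ((k.br1 h).sh a).cmul (1 / 2)
  have e : (fun x => kd (inv Θ (x + a)) / 4) = fun t => 1 / 2 * dW kd Θ (t + a) := by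
    funext x; unfold dW; ring
  rw [e]; exact this

/-- the mean of the tail symbol -/
noncomputable def MS (c : TSc) (D : CD) (kd : ℝ → ℝ) (N : ℕ) (p r s : ℤ → ℂ) : ℝ :=
  mean fun x => TSSP c D kd x (tpM N p x).re (tpM N r x).re (tpM N s x)

theorem TS_br (c : TSc) (D : CD) {kd : ℝ → ℝ} (k : KD D kd) (hr : D.P.Reg) (i1 : IA D.Th1 D.Th1')
    (i2 : IA D.Th2 D.Th2') (N : ℕ) (p r s : ℤ → ℂ) :
    BR fun x => TSSP c D kd x (tpM N p x).re (tpM N r x).re (tpM N s x) := by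
  have bw := w_br hr
  have b2 := br_re' N p
  have b3 := br_re' N r
  obtain ⟨C, hz⟩ := tpM_bm N s
  have zr := BR.re hz
  have zi := BR.im hz
  have zn := BR.nrm hz
  obtain ⟨A1, a1⟩ := br_gt1 N p r s
  obtain ⟨A2, a2⟩ := br_gt2 N p r s
  have v1 := bm_vt1 i1
  have v2 := bm_vt2 i2
  have q1 : BR fun x => (gt1 N p r s x ^ 2 * (starRingEnd ℂ) (vt1 D.Th1 x) ^ 2).re := by
    have := BR.re (((a1.mul v1.conj)).mul (a1.mul v1.conj))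
    have e : (fun x => (gt1 N p r s x ^ 2 * (starRingEnd ℂ) (vt1 D.Th1 x) ^ 2).re) =
        fun t => (gt1 N p r s t * (starRingEnd ℂ) (vt1 D.Th1 t) * (gt1 N p r s t * (starRingEnd ℂ) (vt1 D.Th1 t))).re := by
      funext x
      congr 1
      ring
    rw [e]
    exact this
  have q2 : BR fun x => (gt2 N p r s x ^ 2 * (starRingEnd ℂ) (vt2 D.Th2 x) ^ 2).re := by
    have := BR.re (((a2.mul v2.conj)).mul (a2.mul v2.conj))
    have e : (fun x => (gt2 N p r s x ^ 2 * (starRingEnd ℂ) (vt2 D.Th2 x) ^ 2).re) =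
        fun t => (gt2 N p r s t * (starRingEnd ℂ) (vt2 D.Th2 t) * (gt2 N p r s t * (starRingEnd ℂ) (vt2 D.Th2 t))).re := by
      funext x
      congr 1
      ring
    rw [e]
    exact this
  have n1 := (BR.nrm a1).sq
  have n2 := (BR.nrm a2).sq
  have k1 := k.br_at i1 (Real.pi / 3)
  have k2 := k.br_at i2 (2 * Real.pi / 3)
  have t1 : BR fun x => TSgP c D.P.nu (kd (inv D.Th1 (x + Real.pi / 3))) (gt1 N p r s x) (vt1 D.Th1 x) :=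
    ((k1.cmul _).mul ((n1.cmul _).sub (q1.cmul _))).add (n1.cmul _)
  have t2 : BR fun x => TSgP c D.P.nu (kd (inv D.Th2 (x + 2 * Real.pi / 3))) (gt2 N p r s x) (vt2 D.Th2 x) :=
    ((k2.cmul _).mul ((n2.cmul _).sub (q2.cmul _))).add (n2.cmul _)
  have d4 : BR fun x => (tpM N r x).re ^ 2 / 4 := by
    have := b3.sq.cmul (1 / 4)
    have e : (fun x => (tpM N r x).re ^ 2 / 4) = fun x => 1 / 4 * (tpM N r x).re ^ 2 := by
      funext x; ring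
    rw [e]; exact this
  have lf : BR fun x => Lf (tpM N s x) := (zr.sq.cmul (3 / 2)).add (zi.sq.cmul (1 / 2))
  exact ((((bw.mul (b2.sq.add b3.sq)).cmul _).add
    (((bw.cmul _).add (BR.const _)).mul (((D.L.hf.mul lf).sub (b2.sq.cmul _)).sub (b3.sq.cmul _)))).add (b2.sq.cmul _)
    |>.sub (bw.sq.mul ((((((b3.sq.cmul _).add (b2.sq.cmul _)).cmul _).add ((b2.sq.add d4).cmul _)).add
      (((b2.sq.cmul _).add (b3.sq.cmul _)).cmul _)).add ((((zn.sq.cmul _).add (zr.sq.cmul _)).add (zi.sq.cmul _)).cmul _)))).sub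
    (bw.sq.mul (t1.add t2))

/-- `TS` gives the metric -/
theorem TS_mean {c : TSc} {D : CD} {kd : ℝ → ℝ} (k : KD D kd) (hr : D.P.Reg) (i1 : IA D.Th1 D.Th1')
    (i2 : IA D.Th2 D.Th2') (hT : TSP c D kd)
    (hf : ∀ x, D.L.f (x + 2 * Real.pi) = D.L.f x) {N : ℕ} {p r s : ℤ → ℂ} (a : Arr N p r s) :
    c.tz * ∑ n ∈ Finset.Icc (-(N : ℤ)) N, ‖s n‖ ^ 2 + c.t2 * ∑ n ∈ Finset.Icc (-(N : ℤ)) N, ‖p n‖ ^ 2
      + c.t3 * ∑ n ∈ Finset.Icc (-(N : ℤ)) N, ‖r n‖ ^ 2 ≤ MS c D kd N p r s := by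
  have hB := TS_br c D k hr i1 i2 N p r s
  have kper : ∀ y, kd (y + 2 * Real.pi) = kd y := fun y => by
    rw [show y + 2 * Real.pi = (y + Real.pi) + Real.pi by ring, k.per, k.per]
  have hper : ∀ x, TSSP c D kd (x + 2 * Real.pi) (tpM N p (x + 2 * Real.pi)).re (tpM N r (x + 2 * Real.pi)).re
      (tpM N s (x + 2 * Real.pi)) = TSSP c D kd x (tpM N p x).re (tpM N r x).re (tpM N s x) := by
    intro x
    have v1 : ee (inv D.Th1 (x + 2 * Real.pi + Real.pi / 3) - (x + 2 * Real.pi)) = ee (inv D.Th1 (x + Real.pi / 3) - x) := by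
      rw [show x + 2 * Real.pi + Real.pi / 3 = x + Real.pi / 3 + 2 * Real.pi by ring, i1.inv_per]
      congr 1
      ring
    have v2 : ee (inv D.Th2 (x + 2 * Real.pi + 2 * Real.pi / 3) - (x + 2 * Real.pi)) =
        ee (inv D.Th2 (x + 2 * Real.pi / 3) - x) := by
      rw [show x + 2 * Real.pi + 2 * Real.pi / 3 = x + 2 * Real.pi / 3 + 2 * Real.pi by ring, i2.inv_per]
      congr 1
      ring
    have w1 : kd (inv D.Th1 (x + 2 * Real.pi + Real.pi / 3)) = kd (inv D.Th1 (x + Real.pi / 3)) := by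
      rw [show x + 2 * Real.pi + Real.pi / 3 = x + Real.pi / 3 + 2 * Real.pi by ring, i1.inv_per, kper]
    have w2 : kd (inv D.Th2 (x + 2 * Real.pi + 2 * Real.pi / 3)) = kd (inv D.Th2 (x + 2 * Real.pi / 3)) := by
      rw [show x + 2 * Real.pi + 2 * Real.pi / 3 = x + 2 * Real.pi / 3 + 2 * Real.pi by ring, i2.inv_per, kper]
    rw [tpM_per, tpM_per, tpM_per]
    unfold TSSP
    rw [v1, v2, w1, w2, wP_per, hf]
  unfold MS
  rw [mean_pair hB hper]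
  obtain ⟨C, hz⟩ := tpM_bm N s
  have zn := (BR.nrm hz).sq
  have b2 := (br_re' N p).sq
  have b3 := (br_re' N r).sq
  have e0 : ∑ n ∈ Finset.Icc (-(N : ℤ)) N, ‖s n‖ ^ 2 = mean fun x => ‖tpM N s x‖ ^ 2 := par_tp N s
  rw [e0, par_1 a.hp, par_1 a.hr, ← mean_cmul, ← mean_cmul, ← mean_cmul, ← mean_add (zn.cmul _) (b2.cmul _),
    ← mean_add ((zn.cmul _).add (b2.cmul _)) (b3.cmul _), ← mean_cmul]
  refine mean_mono (((zn.cmul _).add (b2.cmul _)).add (b3.cmul _)) ((hB.add (hB.sh _)).cmul _) fun x => ?_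
  have h := hT x (tpM N p x).re (tpM N r x).re (tpM N s x)
  rw [tpM_even a.ep, tpM_even a.er, tpM_odd a.es]
  linarith

/-- the means of the squares of the tail with the weight `w²` -/
noncomputable def mA (D : CD) (N : ℕ) (s : ℤ → ℂ) : ℝ := mean fun x => D.P.w x ^ 2 * ‖tpM N s x‖ ^ 2
noncomputable def mR (D : CD) (N : ℕ) (s : ℤ → ℂ) : ℝ := mean fun x => D.P.w x ^ 2 * (tpM N s x).re ^ 2
noncomputable def mI (D : CD) (N : ℕ) (s : ℤ → ℂ) : ℝ := mean fun x => D.P.w x ^ 2 * (tpM N s x).im ^ 2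
/-- mass of the weighted array -/
noncomputable def WW (D : CD) (N : ℕ) (p : ℤ → ℂ) : ℝ :=
  ∑ n ∈ Finset.Icc (-((N + 2 : ℕ) : ℤ)) ((N + 2 : ℕ) : ℤ), ‖wm D.P.eta p n‖ ^ 2
/-- mass of the families -/
noncomputable def MC (D : CD) (N : ℕ) (p r s : ℤ → ℂ) : ℝ :=
  ∑ m ∈ Finset.Icc (-((N + 3 : ℕ) : ℤ)) ((N + 3 : ℕ) : ℤ), ‖C1L D.P p r s m‖ ^ 2
    + ∑ m ∈ Finset.Icc (-((N + 3 : ℕ) : ℤ)) ((N + 3 : ℕ) : ℤ), ‖C2L D.P p r s m‖ ^ 2
/-- price of the moments -/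
noncomputable def PM (c : TSc) (D : CD) (kd : ℝ → ℝ) (N : ℕ) (p r s : ℤ → ℂ) : ℝ :=
  (c.l0 : ℝ) / (c.l0 - 1) * mY (tpM (N + 3) (C1L D.P p r s)) (tpM (N + 3) (C2L D.P p r s)) (inv D.Th1) (inv D.Th2)
      (dW kd D.Th1) (dW kd D.Th2)
    + 1 / (c.l0 - 1) * mX (tpM (N + 3) (C1L D.P p r s)) (tpM (N + 3) (C2L D.P p r s)) (inv D.Th1) (inv D.Th2)
      (dW kd D.Th1) (dW kd D.Th2)

/-- the value of the mean -/
theorem MS_eq {c : TSc} {D : CD} {kd : ℝ → ℝ} (k : KD D kd) (hr : D.P.Reg) (i1 : IA D.Th1 D.Th1')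
    (i2 : IA D.Th2 D.Th2') {N : ℕ} {p r s : ℤ → ℂ} (a : Arr N p r s) :
    MS c D kd N p r s = (9 - D.P.cs) * (SQ (N + 2) D.P.eta p + SQ (N + 2) D.P.eta r)
      + ((D.P.m - D.P.lam) * (LQ N (Fw D) s - D.L.p2 * SQ (N + 2) D.P.eta p - D.L.p3 * SQ (N + 2) D.P.eta r)
        + D.mu1 / 2 * (LQ N (Fn D) s - D.L.p2 * S1Q N p - D.L.p3 * S1Q N r))
      + 3 / 4 * (D.mu1 + D.mu2) * S1Q N p
      - (c.be / D.P.nu * ((c.L : ℝ) / (4 * (c.L - 1)) * WW D N r + 1 / (c.L - 1) * WW D N p)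
        + 1 / ((c.L : ℝ) - 1) * (WW D N p + WW D N r / 4)
        + c.kap / ((c.L : ℝ) - 1) * (21 / 4 * WW D N p + 75 / 8 * WW D N r)
        + 1 / ((c.K : ℝ) - 1) * (2 * (c.kap - 1) * mA D N s + 2 * (1 + c.th) * mR D N s
          + 2 * (1 + 1 / c.th) * mI D N s))
      - (c.ga * (D.P.nu / 4) * PM c D kd N p r s + c.dlow * MC D N p r s) := by
  have bw := w_br hr
  obtain ⟨C, hz⟩ := tpM_bm N s
  have zr := BR.re hz
  have zi := BR.im hz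
  have zn := BR.nrm hz
  have hw : D.P.w = wR D.P.eta 0 0 := rfl
  obtain ⟨A1, a1⟩ := br_gt1 N p r s
  obtain ⟨A2, a2⟩ := br_gt2 N p r s
  have v1 := bm_vt1 i1
  have v2 := bm_vt2 i2
  have q1 : BR fun x => (gt1 N p r s x ^ 2 * (starRingEnd ℂ) (vt1 D.Th1 x) ^ 2).re := by
    have := BR.re (((a1.mul v1.conj)).mul (a1.mul v1.conj))
    have e : (fun x => (gt1 N p r s x ^ 2 * (starRingEnd ℂ) (vt1 D.Th1 x) ^ 2).re) =
        fun t => (gt1 N p r s t * (starRingEnd ℂ) (vt1 D.Th1 t) * (gt1 N p r s t * (starRingEnd ℂ) (vt1 D.Th1 t))).re := by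
      funext x
      congr 1
      ring
    rw [e]
    exact this
  have q2 : BR fun x => (gt2 N p r s x ^ 2 * (starRingEnd ℂ) (vt2 D.Th2 x) ^ 2).re := by
    have := BR.re (((a2.mul v2.conj)).mul (a2.mul v2.conj))
    have e : (fun x => (gt2 N p r s x ^ 2 * (starRingEnd ℂ) (vt2 D.Th2 x) ^ 2).re) =
        fun t => (gt2 N p r s t * (starRingEnd ℂ) (vt2 D.Th2 t) * (gt2 N p r s t * (starRingEnd ℂ) (vt2 D.Th2 t))).re := by
      funext x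
      congr 1
      ring
    rw [e]
    exact this
  have lf : BR fun x => Lf (tpM N s x) := (zr.sq.cmul (3 / 2)).add (zi.sq.cmul (1 / 2))
  -- the pieces
  have pP : ML (fun x => D.P.w x * (tpM N p x).re ^ 2) (SQ (N + 2) D.P.eta p) :=
    ⟨bw.mul (br_re' N p).sq, (sq_mean hr a.sp a.hp).symm⟩
  have pR : ML (fun x => D.P.w x * (tpM N r x).re ^ 2) (SQ (N + 2) D.P.eta r) :=
    ⟨bw.mul (br_re' N r).sq, (sq_mean hr a.sr a.hr).symm⟩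
  have oP : ML (fun x => (tpM N p x).re ^ 2) (S1Q N p) := ⟨(br_re' N p).sq, (s1_mean a.sp a.hp).symm⟩
  have oR : ML (fun x => (tpM N r x).re ^ 2) (S1Q N r) := ⟨(br_re' N r).sq, (s1_mean a.sr a.hr).symm⟩
  have lw : ML (fun x => (D.P.w x * D.L.f x) * Lf (tpM N s x)) (LQ N (Fw D) s) :=
    ⟨(bw.mul D.L.hf).mul lf, (lq_mean (bw.mul D.L.hf) a.ss).symm⟩
  have ln : ML (fun x => D.L.f x * Lf (tpM N s x)) (LQ N (Fn D) s) := ⟨D.L.hf.mul lf, (lq_mean D.L.hf a.ss).symm⟩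
  have wP : ML (fun x => D.P.w x ^ 2 * (tpM N p x).re ^ 2) (WW D N p) :=
    ⟨bw.sq.mul (br_re' N p).sq, (par_w a.sp a.hp).symm⟩
  have wRr : ML (fun x => D.P.w x ^ 2 * (tpM N r x).re ^ 2) (WW D N r) :=
    ⟨bw.sq.mul (br_re' N r).sq, (par_w a.sr a.hr).symm⟩
  have mz : ML (fun x => D.P.w x ^ 2 * ‖tpM N s x‖ ^ 2) (mA D N s) := ML.of (bw.sq.mul zn.sq)
  have mr : ML (fun x => D.P.w x ^ 2 * (tpM N s x).re ^ 2) (mR D N s) := ML.of (bw.sq.mul zr.sq)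
  have mi : ML (fun x => D.P.w x ^ 2 * (tpM N s x).im ^ 2) (mI D N s) := ML.of (bw.sq.mul zi.sq)
  have g1 : ML (fun x => D.P.w x ^ 2 * ‖gt1 N p r s x‖ ^ 2)
      (∑ m ∈ Finset.Icc (-((N + 3 : ℕ) : ℤ)) ((N + 3 : ℕ) : ℤ), ‖C1L D.P p r s m‖ ^ 2) :=
    ⟨bw.sq.mul (BR.nrm a1).sq, (mass_C1 a.sp a.sr a.ss a.hp a.hr).symm⟩
  have g2 : ML (fun x => D.P.w x ^ 2 * ‖gt2 N p r s x‖ ^ 2)
      (∑ m ∈ Finset.Icc (-((N + 3 : ℕ) : ℤ)) ((N + 3 : ℕ) : ℤ), ‖C2L D.P p r s m‖ ^ 2) :=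
    ⟨bw.sq.mul (BR.nrm a2).sq, (mass_C2 a.sp a.sr a.ss a.hp a.hr).symm⟩
  set kY : ℝ := (c.l0 : ℝ) / (c.l0 - 1) with hkY
  set kX : ℝ := 1 / ((c.l0 : ℝ) - 1) with hkX
  have d1 : BR fun x => kd (inv D.Th1 (x + Real.pi / 3)) / 2 := (k.br1 i1).sh _
  have d2 : BR fun x => kd (inv D.Th2 (x + 2 * Real.pi / 3)) / 2 := (k.br1 i2).sh _
  have m1 := ML.of (d1.mul (bw.sq.mul (((BR.nrm a1).sq.cmul ((kY + kX) / 2)).sub (q1.cmul ((kY - kX) / 2)))))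
  have m2 := ML.of (d2.mul (bw.sq.mul (((BR.nrm a2).sq.cmul ((kY + kX) / 2)).sub (q2.cmul ((kY - kX) / 2)))))
  have hp := priceP k i1 i2 bw a.sp a.sr a.ss a.hp a.hr kY kX
  have tot := (((((pP.add pR).cmul (9 - D.P.cs)).add
    ((((lw.sub (pP.cmul D.L.p2)).sub (pR.cmul D.L.p3)).cmul (D.P.m - D.P.lam)).add
      (((ln.sub (oP.cmul D.L.p2)).sub (oR.cmul D.L.p3)).cmul (D.mu1 / 2)))).add
    (oP.cmul (3 / 4 * (D.mu1 + D.mu2)))).sub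
    ((((((wRr.cmul ((c.L : ℝ) / (4 * (c.L - 1)))).add (wP.cmul (1 / ((c.L : ℝ) - 1)))).cmul (c.be / D.P.nu)).add
      ((wP.add (wRr.cmul (1 / 4))).cmul (1 / ((c.L : ℝ) - 1)))).add
      (((wP.cmul (21 / 4)).add (wRr.cmul (75 / 8))).cmul (c.kap / ((c.L : ℝ) - 1)))).add
      ((((mz.cmul (2 * (c.kap - 1))).add (mr.cmul (2 * (1 + c.th)))).add
        (mi.cmul (2 * (1 + 1 / c.th)))).cmul (1 / ((c.K : ℝ) - 1))))).sub
    (((m1.add m2).cmul (c.ga * (D.P.nu / 4))).add ((g1.add g2).cmul c.dlow))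
  have fin := tot.congr (g := fun x => TSSP c D kd x (tpM N p x).re (tpM N r x).re (tpM N s x)) (by
    intro x
    have f1 : TSgP c D.P.nu (kd (inv D.Th1 (x + Real.pi / 3))) (g1L (tpM N p x).re (tpM N r x).re (tpM N s x))
        (ee (inv D.Th1 (x + Real.pi / 3) - x)) =
      c.ga * (D.P.nu / 2) * (kd (inv D.Th1 (x + Real.pi / 3)) / 4) * ((kY + kX) / 2 * ‖gt1 N p r s x‖ ^ 2
        - (kY - kX) / 2 * (gt1 N p r s x ^ 2 * (starRingEnd ℂ) (vt1 D.Th1 x) ^ 2).re) + c.dlow * ‖gt1 N p r s x‖ ^ 2 := rfl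
    have f2 : TSgP c D.P.nu (kd (inv D.Th2 (x + 2 * Real.pi / 3))) (g2L (tpM N p x).re (tpM N r x).re (tpM N s x))
        (ee (inv D.Th2 (x + 2 * Real.pi / 3) - x)) =
      c.ga * (D.P.nu / 2) * (kd (inv D.Th2 (x + 2 * Real.pi / 3)) / 4) * ((kY + kX) / 2 * ‖gt2 N p r s x‖ ^ 2
        - (kY - kX) / 2 * (gt2 N p r s x ^ 2 * (starRingEnd ℂ) (vt2 D.Th2 x) ^ 2).re) + c.dlow * ‖gt2 N p r s x‖ ^ 2 := rfl
    unfold TSSP
    rw [f1, f2]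
    ring)
  unfold MS
  rw [fin.eq]
  unfold PM MC
  rw [hp]
  ring

/-! ### the quadratic form of the tail -/

/-- one coefficient of a hermitian array -/
theorem one_le_half {N : ℕ} {r : ℤ → ℂ} (sr : Sup N r) (hr : ∀ n, r (-n) = (starRingEnd ℂ) (r n)) {m : ℤ} (hm : m ≠ 0) :
    ‖r m‖ ^ 2 ≤ 1 / 2 * ∑ n ∈ Finset.Icc (-(N : ℤ)) N, ‖r n‖ ^ 2 := by
  by_cases h : m ∈ Finset.Icc (-(N : ℤ)) N
  · have h2 : -m ∈ Finset.Icc (-(N : ℤ)) N := by rw [Finset.mem_Icc] at h ⊢; omega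
    have hs : ({m, -m} : Finset ℤ) ⊆ Finset.Icc (-(N : ℤ)) N := by
      intro n hn
      rw [Finset.mem_insert, Finset.mem_singleton] at hn
      rcases hn with rfl | rfl
      · exact h
      · exact h2
    have h3 := Finset.sum_le_sum_of_subset_of_nonneg hs fun n _ _ => sq_nonneg ‖r n‖
    rw [Finset.sum_pair (by omega), hr, Complex.norm_conj] at h3
    linarith
  · rw [sr m h, norm_zero]
    have : 0 ≤ ∑ n ∈ Finset.Icc (-(N : ℤ)) N, ‖r n‖ ^ 2 := Finset.sum_nonneg fun _ _ => sq_nonneg _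
    nlinarith

/-- the corrections of the metric -/
noncomputable def x2 (c : TSc) (D : CD) (bL : ℝ) : ℝ := (bL - c.be) * ‖D.P.eta‖ ^ 2 / (((c.L : ℝ) - 1) * D.P.nu)
noncomputable def x3 (c : TSc) (D : CD) (bL : ℝ) : ℝ :=
  (bL - c.be) * ‖D.P.eta‖ ^ 2 * c.L / (4 * ((c.L : ℝ) - 1) * D.P.nu)

/-- the cost of the half lines in the form `NF` -/
noncomputable def nfc (c : TSc) (D : CD) (N : ℕ) (p r s : ℤ → ℂ) : ℝ :=
  1 / ((c.K : ℝ) - 1) * (2 * (c.kap - 1) * mA D N s + 2 * (1 + c.th) * mR D N s + 2 * (1 + 1 / c.th) * mI D N s)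
    + c.kap / ((c.L : ℝ) - 1) * (21 / 4 * WW D N p + 75 / 8 * WW D N r)

/-- **THE QUADRATIC FORM OF THE TAIL** -/
theorem tail_form {c : TSc} {D : CD} {kd : ℝ → ℝ} (k : KD D kd) (hr : D.P.Reg) (i1 : IA D.Th1 D.Th1')
    (i2 : IA D.Th2 D.Th2') (hT : TSP c D kd)
    (hf : ∀ x, D.L.f (x + 2 * Real.pi) = D.L.f x) (hL4 : 4 ≤ c.L) (hLe : Even c.L) {N : ℕ} {p r s : ℤ → ℂ}
    (a : Arr N p r s) (h : TlKL c.K c.L p r s) {be ga : ℕ → ℝ} {bL dl dn A : ℝ} {k0 : ℕ} (hl0 : c.l0 = 2 * k0 + 2)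
    (hbe : ∀ k, c.L < 2 * k + 2 → be k ≤ c.be) (hbL : ∀ k, 2 * k + 2 = c.L → be k ≤ bL) (hb0 : 0 ≤ c.be)
    (hbLe : c.be ≤ bL) (pg : ∀ k, 0 < ga k) (ug : ∀ k, ga k ≤ A) (hga : ∀ k, k0 ≤ k → ga k ≤ c.ga)
    (hlow : D.P.nu / 2 * ∑ k ∈ Finset.range k0, ga k * ((lk k ^ 2 - 1) *
      ‖WT D.Th1 D.Th1' D.Th2 D.Th2' (N + 3) (C1L D.P p r s) (C2L D.P p r s) k‖ ^ 2) ≤ dl * MC D N p r s)
    (hNF : -nfc c D N p r s - dn * MC D N p r s ≤ NF D.P.ps (N + 3) (C1L D.P p r s) (C2L D.P p r s))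
    (hd : dl + dn ≤ c.dlow) :
    c.tz * ∑ n ∈ Finset.Icc (-(N : ℤ)) N, ‖s n‖ ^ 2 + (c.t2 - x2 c D bL) * ∑ n ∈ Finset.Icc (-(N : ℤ)) N, ‖p n‖ ^ 2
      + (c.t3 - x3 c D bL) * ∑ n ∈ Finset.Icc (-(N : ℤ)) N, ‖r n‖ ^ 2 ≤
    TT D N p r s - 2 / D.P.nu * (∑' k : ℕ, be k * ((lk k ^ 2 - 1) * ‖HkL D.P p r k‖ ^ 2)
      + D.P.nu ^ 2 / 4 * ∑' k : ℕ, ga k * ((lk k ^ 2 - 1) *
        ‖WT D.Th1 D.Th1' D.Th2 D.Th2' (N + 3) (C1L D.P p r s) (C2L D.P p r s) k‖ ^ 2)) := by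
  have hν : 0 < D.P.nu := hr.nu0
  have hL1 : (1 : ℝ) < c.L := by exact_mod_cast (by omega : 1 < c.L)
  have hLm : 0 < (c.L : ℝ) - 1 := by linarith
  have zp : ∀ n : ℤ, |n| ≤ c.L → p n = 0 := fun n hn => h.p0 n (by rw [Finset.mem_Icc]; exact abs_le.1 hn)
  have zr : ∀ n : ℤ, |n| ≤ c.L → r n = 0 := fun n hn => h.r0 n (by rw [Finset.mem_Icc]; exact abs_le.1 hn)
  -- the symbol
  have t1 := TS_mean k hr i1 i2 hT hf a
  rw [MS_eq k hr i1 i2 a] at t1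
  -- link 1
  have t2 := L1_tail (P := D.P) (N := N) hL4 hLe a.hp a.hr a.ep a.er zp zr
  -- the H part
  have t3 := H_part (P := D.P) (be := be) hL4 hLe a.sp a.sr a.hp a.hr zp zr hb0 hbe hbL hbLe
  -- the moments
  set f : ℕ → ℝ := fun k => (lk k ^ 2 - 1) *
    ‖WT D.Th1 D.Th1' D.Th2 D.Th2' (N + 3) (C1L D.P p r s) (C2L D.P p r s) k‖ ^ 2 with hfd
  have f0 : ∀ k, 0 ≤ f k := fun k => mul_nonneg (lk_sq k).le (sq_nonneg _)
  have sW : Summable f := WT_sumP k i1 i2 (N + 3) _ _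
  have t4 := split_tail f0 sW pg ug hga
  have t5 := WT_besselP k i1 i2 (N + 3) (C1L D.P p r s) (C2L D.P p r s) k0
  have hlk : lk k0 = (c.l0 : ℝ) := by rw [hl0]; unfold lk; push_cast; ring
  rw [hlk] at t5
  have t5' : ∑' k : ℕ, f (k + k0) ≤ 1 / 2 * PM c D kd N p r s := t5
  have hga0 : 0 ≤ c.ga := (pg k0).le.trans (hga k0 le_rfl)
  have t6 := mul_le_mul_of_nonneg_left t5' hga0
  have MC0 : 0 ≤ MC D N p r s := add_nonneg (Finset.sum_nonneg fun _ _ => sq_nonneg _) (Finset.sum_nonneg fun _ _ => sq_nonneg _)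
  have t7 := mul_le_mul_of_nonneg_right hd MC0
  -- the row L
  have r1 := one_le_half a.sr a.hr (m := (c.L : ℤ) + 2) (by omega)
  have p1 := one_le_half a.sp a.hp (m := (c.L : ℤ) + 2) (by omega)
  set Sp := ∑ n ∈ Finset.Icc (-(N : ℤ)) N, ‖p n‖ ^ 2 with hSp
  set Sr := ∑ n ∈ Finset.Icc (-(N : ℤ)) N, ‖r n‖ ^ 2 with hSr
  set Ss := ∑ n ∈ Finset.Icc (-(N : ℤ)) N, ‖s n‖ ^ 2 with hSs
  have cc : 0 ≤ (bL - c.be) * ‖D.P.eta‖ ^ 2 := mul_nonneg (by linarith) (sq_nonneg _)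
  have u1 : 2 / D.P.nu * ((bL - c.be) * ‖D.P.eta‖ ^ 2 * ((c.L : ℝ) / (4 * (c.L - 1)) * ‖r (c.L + 2)‖ ^ 2
      + 1 / ((c.L : ℝ) - 1) * ‖p (c.L + 2)‖ ^ 2)) ≤ x3 c D bL * Sr + x2 c D bL * Sp := by
    have w1 : (c.L : ℝ) / (4 * (c.L - 1)) * ‖r (c.L + 2)‖ ^ 2 ≤ (c.L : ℝ) / (4 * (c.L - 1)) * (1 / 2 * Sr) :=
      mul_le_mul_of_nonneg_left r1 (by positivity)
    have w2 : 1 / ((c.L : ℝ) - 1) * ‖p (c.L + 2)‖ ^ 2 ≤ 1 / ((c.L : ℝ) - 1) * (1 / 2 * Sp) :=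
      mul_le_mul_of_nonneg_left p1 (by positivity)
    have w3 := mul_le_mul_of_nonneg_left (mul_le_mul_of_nonneg_left (add_le_add w1 w2) cc)
      (by positivity : 0 ≤ 2 / D.P.nu)
    refine w3.trans (le_of_eq ?_)
    unfold x2 x3
    field_simp
  -- sum of all
  have hD : 2 / D.P.nu * (∑' k : ℕ, be k * ((lk k ^ 2 - 1) * ‖HkL D.P p r k‖ ^ 2)) ≤
      c.be / D.P.nu * ((c.L : ℝ) / (4 * (c.L - 1)) * WW D N r + 1 / (c.L - 1) * WW D N p)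
      + (x3 c D bL * Sr + x2 c D bL * Sp) := by
    have w := mul_le_mul_of_nonneg_left t3 (by positivity : 0 ≤ 2 / D.P.nu)
    have e : 2 / D.P.nu * (c.be / 2 * ((c.L : ℝ) / (4 * (c.L - 1)) * WW D N r + 1 / ((c.L : ℝ) - 1) * WW D N p)) =
        c.be / D.P.nu * ((c.L : ℝ) / (4 * (c.L - 1)) * WW D N r + 1 / (c.L - 1) * WW D N p) := by
      ring
    rw [mul_add] at w
    have w' : 2 / D.P.nu * (∑' k : ℕ, be k * ((lk k ^ 2 - 1) * ‖HkL D.P p r k‖ ^ 2)) ≤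
        2 / D.P.nu * (c.be / 2 * ((c.L : ℝ) / (4 * (c.L - 1)) * WW D N r + 1 / ((c.L : ℝ) - 1) * WW D N p))
        + 2 / D.P.nu * ((bL - c.be) * ‖D.P.eta‖ ^ 2 * ((c.L : ℝ) / (4 * (c.L - 1)) * ‖r (c.L + 2)‖ ^ 2
      + 1 / ((c.L : ℝ) - 1) * ‖p (c.L + 2)‖ ^ 2)) := w
    linarith
  have hM : 2 / D.P.nu * (D.P.nu ^ 2 / 4 * ∑' k : ℕ, ga k * f k) ≤
      dl * MC D N p r s + c.ga * (D.P.nu / 4) * PM c D kd N p r s := by
    have e : 2 / D.P.nu * (D.P.nu ^ 2 / 4 * ∑' k : ℕ, ga k * f k) = D.P.nu / 2 * ∑' k : ℕ, ga k * f k := by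
      have := hν.ne'
      field_simp
      norm_num
    rw [e]
    have w := mul_le_mul_of_nonneg_left t4 (by positivity : 0 ≤ D.P.nu / 2)
    have w2 := mul_le_mul_of_nonneg_left t6 (by positivity : 0 ≤ D.P.nu / 2)
    have e2 : D.P.nu / 2 * (c.ga * (1 / 2 * PM c D kd N p r s)) = c.ga * (D.P.nu / 4) * PM c D kd N p r s := by ring
    rw [mul_add] at w
    linarith
  have e3 : (∑ n ∈ Finset.Icc (-((N + 2 : ℕ) : ℤ)) ((N + 2 : ℕ) : ℤ), ‖wm D.P.eta p n‖ ^ 2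
      + 1 / 4 * ∑ n ∈ Finset.Icc (-((N + 2 : ℕ) : ℤ)) ((N + 2 : ℕ) : ℤ), ‖wm D.P.eta r n‖ ^ 2) =
      WW D N p + WW D N r / 4 := by
    unfold WW; ring
  rw [e3] at t2
  unfold nfc at hNF
  unfold TT
  show _ ≤ _ - 2 / D.P.nu * (_ + D.P.nu ^ 2 / 4 * ∑' k : ℕ, ga k * f k)
  rw [mul_add (2 / D.P.nu) (∑' k : ℕ, be k * ((lk k ^ 2 - 1) * ‖HkL D.P p r k‖ ^ 2))]
  linarith

end Pool.Agent.Helper75.SH
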