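import Pool.Agent.Helper95.SH.Cell

/-!
# Project RC, SHARP, cell engine, head/tail reduction: the pointwise tail symbol, definitions

`TSS`: the pointwise quadratic form in the tail values `(b₂, b₃, z)` at `x`. `TS`: averaged over `x, x + π` it is at least
`tz |z|² + t2 b₂² + t3 b₃²`.
-/

open MeasureTheory Set Filter Topology

namespace Pool.Agent.Helper75.SH

open Helper49.LT hiding sg
open Helper49.RC (om)
open Helper95.RC Helper95.SH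
open Helper49.Sharp
open Helper41.SH (IA inv)

/-- numbers of the tail estimate: `be, ga` weights of the `H` part and of the moments, `th` split of the half line,
`kap ≥ (1 - 9k²/4)^(-1/2)`, `kap4` total slope, `l0` first row of the Bessel bound, `dlow` cost of the low rows,
`tz, t2, t3` tail metric, `K, L` windows -/
structure TSc where
  K : ℕ
  L : ℕ
  l0 : ℕ
  be : ℝ
  ga : ℝ
  th : ℝ
  kap : ℝ
  kap4 : ℝ
  dlow : ℝ
  tz : ℝ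
  t2 : ℝ
  t3 : ℝ

/-- linear part of `g₁` -/
noncomputable def g1L (b2 b3 : ℝ) (z : ℂ) : ℂ := (starRingEnd ℂ) om * b2 + kq 2 * b3 + z
/-- linear part of `g₂` -/
noncomputable def g2L (b2 b3 : ℝ) (z : ℂ) : ℂ := (starRingEnd ℂ) om ^ 2 * b2 + (starRingEnd ℂ) (kq 2) * b3 - z

/-- one family: the price of the moments for the direction `v` and the cost of the low rows -/
noncomputable def TSg (c : TSc) (nu : ℝ) (g v : ℂ) : ℝ :=
  c.ga * (nu / 2) * (c.kap4 / 4) *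
    (((c.l0 : ℝ) / (c.l0 - 1) + 1 / (c.l0 - 1)) / 2 * ‖g‖ ^ 2
      - ((c.l0 : ℝ) / (c.l0 - 1) - 1 / (c.l0 - 1)) / 2 * (g ^ 2 * (starRingEnd ℂ) v ^ 2).re)
  + c.dlow * ‖g‖ ^ 2

/-- the pointwise form of the tail -/
noncomputable def TSS (c : TSc) (D : CD) (x b2 b3 : ℝ) (z : ℂ) : ℝ :=
  (9 - D.P.cs) * (D.P.w x * (b2 ^ 2 + b3 ^ 2))
  + ((D.P.m - D.P.lam) * D.P.w x + D.mu1 / 2) * (D.L.f x * Lf z - D.L.p2 * b2 ^ 2 - D.L.p3 * b3 ^ 2)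
  + 3 / 4 * (D.mu1 + D.mu2) * b2 ^ 2
  - D.P.w x ^ 2 * (c.be / D.P.nu * ((c.L : ℝ) / (4 * (c.L - 1)) * b3 ^ 2 + 1 / (c.L - 1) * b2 ^ 2)
      + 1 / ((c.L : ℝ) - 1) * (b2 ^ 2 + b3 ^ 2 / 4)
      + c.kap / ((c.L : ℝ) - 1) * (21 / 4 * b2 ^ 2 + 75 / 8 * b3 ^ 2)
      + 1 / ((c.K : ℝ) - 1) * (2 * (c.kap - 1) * ‖z‖ ^ 2 + 2 * (1 + c.th) * z.re ^ 2 + 2 * (1 + 1 / c.th) * z.im ^ 2))
  - D.P.w x ^ 2 * (TSg c D.P.nu (g1L b2 b3 z) (ee (inv D.Th1 (x + Real.pi / 3) - x))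
      + TSg c D.P.nu (g2L b2 b3 z) (ee (inv D.Th2 (x + 2 * Real.pi / 3) - x)))

/-- **the tail symbol** -/
def TS (c : TSc) (D : CD) : Prop := ∀ (x b2 b3 : ℝ) (z : ℂ),
  2 * (c.tz * ‖z‖ ^ 2 + c.t2 * b2 ^ 2 + c.t3 * b3 ^ 2) ≤ TSS c D x b2 b3 z + TSS c D (x + Real.pi) b2 b3 (-z)

end Pool.Agent.Helper75.SH
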