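import Pool.Agent.Helper75.SH.HTW
import Pool.Agent.Helper75.SH.TSD

/-!
# Project RC, SHARP, cell engine, head/tail reduction: tail arrays as trigonometric polynomials

`tpM_wm`, `tpM_shift`: multiplication by the weight, shift. `tpM_C1`, `tpM_C2`: the families of the tail.
`par_tp`: Parseval. `price`: the means of the moments of the tail.
-/

open MeasureTheory Set Filter Topology

namespace Pool.Agent.Helper75.SH

open Helper49.LT hiding sg
open Helper49.RC (om)
open Helper95.RC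
open Helper49.Sharp
open Helper41.SH (IA inv)
open Helper95.SH
open Helper87.RC (BM)
open Helper56.RC (fc)
open Pool.Agent.Helper20.RC (lk lk_ge lk_sq eM wR)
open Pool.Agent.Helper17.RC (WOK mX mY)

section

variable {N M : ℕ} {a p r s : ℤ → ℂ}

theorem tpM_def (M : ℕ) (a : ℤ → ℂ) (x : ℝ) :
    tpM M a x = ∑ n ∈ Finset.Icc (-(M : ℤ)) M, a n * ee ((n : ℝ) * x) := rfl

theorem tpM_win (h : Sup N a) (hM : N ≤ M) (x : ℝ) : tpM M a x = tpM N a x := by
  rw [tpM_def, tpM_def]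
  exact win_eq hM fun n hn => by rw [h n hn, zero_mul]

theorem tpM_add (M : ℕ) (a b : ℤ → ℂ) (x : ℝ) : tpM M (fun n => a n + b n) x = tpM M a x + tpM M b x := by
  rw [tpM_def, tpM_def, tpM_def, ← Finset.sum_add_distrib]
  exact Finset.sum_congr rfl fun n _ => by ring

theorem tpM_sub (M : ℕ) (a b : ℤ → ℂ) (x : ℝ) : tpM M (fun n => a n - b n) x = tpM M a x - tpM M b x := by
  rw [tpM_def, tpM_def, tpM_def, ← Finset.sum_sub_distrib]
  exact Finset.sum_congr rfl fun n _ => by ring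

theorem tpM_mul (M : ℕ) (c : ℂ) (a : ℤ → ℂ) (x : ℝ) : tpM M (fun n => c * a n) x = c * tpM M a x := by
  rw [tpM_def, tpM_def, Finset.mul_sum]
  exact Finset.sum_congr rfl fun n _ => by ring

/-- the function of a hermitian array is real -/
theorem tpM_real (hp : ∀ n, p (-n) = (starRingEnd ℂ) (p n)) (x : ℝ) : tpM N p x = ((tpM N p x).re : ℂ) := by
  have h : (starRingEnd ℂ) (tpM N p x) = tpM N p x := by
    rw [tpM_def, map_sum, ← sum_refl]
    refine Finset.sum_congr rfl fun n _ => ?_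
    rw [map_mul, hp, Complex.conj_conj, ← ee_neg]
    congr 2
    push_cast
    ring
  exact (Complex.conj_eq_iff_re.mp h).symm

/-- the coefficients -/
theorem fc_tpM (h : Sup N a) : fc (tpM N a) = a := by
  funext n
  unfold tpM
  rw [fc_tp]
  by_cases hn : n ∈ Finset.Icc (-(N : ℤ)) N
  · rw [if_pos hn]
  · rw [if_neg hn, h n hn]

/-- multiplication by the weight -/
theorem tpM_wm (η : ℂ) (h : Sup N a) (x : ℝ) : tpM (N + 2) (wm η a) x = (wR η 0 0 x : ℂ) * tpM N a x := by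
  rw [wR_c]
  have e1 : tpM (N + 2) (wm η a) x = tpM (N + 2) a x
      + (∑ n ∈ Finset.Icc (-((N + 2 : ℕ) : ℤ)) ((N + 2 : ℕ) : ℤ), η * a (n + -2) * ee ((n : ℝ) * x)
      + ∑ n ∈ Finset.Icc (-((N + 2 : ℕ) : ℤ)) ((N + 2 : ℕ) : ℤ), (starRingEnd ℂ) η * a (n + 2) * ee ((n : ℝ) * x)) := by
    rw [tpM_def, tpM_def, ← Finset.sum_add_distrib, ← Finset.sum_add_distrib]
    refine Finset.sum_congr rfl fun n _ => ?_
    unfold wm
    rw [show n + -2 = n - 2 by ring]
    ring
  have e2 := win_shift (f := fun n => η * a n * ee (((n + 2 : ℤ) : ℝ) * x)) (M := N) (M' := N + 2) (-2)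
    (fun n hn => by rw [h n hn]; ring)
    (fun n hn => by
      rw [h (n + -2) (by rw [Finset.mem_Icc] at hn ⊢; push_cast at hn ⊢; omega)]
      ring)
  have e3 := win_shift (f := fun n => (starRingEnd ℂ) η * a n * ee (((n + -2 : ℤ) : ℝ) * x)) (M := N) (M' := N + 2) 2
    (fun n hn => by rw [h n hn]; ring)
    (fun n hn => by
      rw [h (n + 2) (by rw [Finset.mem_Icc] at hn ⊢; push_cast at hn ⊢; omega)]
      ring)
  have s1 : ∑ n ∈ Finset.Icc (-((N + 2 : ℕ) : ℤ)) ((N + 2 : ℕ) : ℤ), η * a (n + -2) * ee ((n : ℝ) * x) =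
      η * ee (((2 : ℤ) : ℝ) * x) * tpM N a x := by
    rw [tpM_def, Finset.mul_sum]
    calc _ = ∑ n ∈ Finset.Icc (-((N + 2 : ℕ) : ℤ)) ((N + 2 : ℕ) : ℤ),
          η * a (n + -2) * ee (((n + -2 + 2 : ℤ) : ℝ) * x) := by
          refine Finset.sum_congr rfl fun n _ => ?_
          rw [show n + -2 + 2 = n by ring]
      _ = _ := e2
      _ = _ := by
          refine Finset.sum_congr rfl fun n _ => ?_
          rw [show (((n + 2 : ℤ) : ℝ)) * x = ((2 : ℤ) : ℝ) * x + (n : ℝ) * x by push_cast; ring, ee_add]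
          ring
  have s2 : ∑ n ∈ Finset.Icc (-((N + 2 : ℕ) : ℤ)) ((N + 2 : ℕ) : ℤ), (starRingEnd ℂ) η * a (n + 2) * ee ((n : ℝ) * x) =
      (starRingEnd ℂ) η * ee (((-2 : ℤ) : ℝ) * x) * tpM N a x := by
    rw [tpM_def, Finset.mul_sum]
    calc _ = ∑ n ∈ Finset.Icc (-((N + 2 : ℕ) : ℤ)) ((N + 2 : ℕ) : ℤ),
          (starRingEnd ℂ) η * a (n + 2) * ee (((n + 2 + -2 : ℤ) : ℝ) * x) := by
          refine Finset.sum_congr rfl fun n _ => ?_
          rw [show n + 2 + -2 = n by ring]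
      _ = _ := e3
      _ = _ := by
          refine Finset.sum_congr rfl fun n _ => ?_
          rw [show (((n + -2 : ℤ) : ℝ)) * x = ((-2 : ℤ) : ℝ) * x + (n : ℝ) * x by push_cast; ring, ee_add]
          ring
  rw [e1, s1, s2, tpM_win h (by omega)]
  ring

/-- shift by one frequency and by an angle -/
theorem tpM_shift (h : Sup N a) (α θ : ℝ) :
    tpM (N + 1) (fun m => ee (-(m : ℝ) * α) * a (m - 1)) θ = ee (θ - α) * tpM N a (θ - α) := by
  have e2 := win_shift (f := fun n => a n * ee (((n + 1 : ℤ) : ℝ) * (θ - α))) (M := N) (M' := N + 1) (-1)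
    (fun n hn => by rw [h n hn]; ring)
    (fun n hn => by
      rw [h (n + -1) (by rw [Finset.mem_Icc] at hn ⊢; push_cast at hn ⊢; omega)]
      ring)
  rw [tpM_def, tpM_def, Finset.mul_sum]
  calc _ = ∑ n ∈ Finset.Icc (-((N + 1 : ℕ) : ℤ)) ((N + 1 : ℕ) : ℤ),
        a (n + -1) * ee (((n + -1 + 1 : ℤ) : ℝ) * (θ - α)) := by
        refine Finset.sum_congr rfl fun n _ => ?_
        rw [show n + -1 + 1 = n by ring, show n + -1 = n - 1 by ring,
          show (n : ℝ) * (θ - α) = -(n : ℝ) * α + (n : ℝ) * θ by ring, ee_add]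
        ring
    _ = _ := e2
    _ = _ := by
        refine Finset.sum_congr rfl fun n _ => ?_
        rw [show (((n + 1 : ℤ) : ℝ)) * (θ - α) = (θ - α) + (n : ℝ) * (θ - α) by push_cast; ring, ee_add]
        ring

/-- Parseval for a trigonometric polynomial -/
theorem par_tp (M : ℕ) (a : ℤ → ℂ) :
    ∑ n ∈ Finset.Icc (-(M : ℤ)) M, ‖a n‖ ^ 2 = mean fun x => ‖tpM M a x‖ ^ 2 := by
  obtain ⟨C, hC⟩ := tpM_bm M a
  have h := mean_lin hC (tpM_sup M a) hC
  have e1 : (fun t => (tpM M a t * (starRingEnd ℂ) (tpM M a t)).re) = fun t => ‖tpM M a t‖ ^ 2 := by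
    funext t
    rw [Complex.mul_conj, Complex.normSq_eq_norm_sq, Complex.ofReal_re]
  rw [e1] at h
  rw [h, Complex.re_sum]
  refine Finset.sum_congr rfl fun n hn => ?_
  have e2 : fc (tpM M a) n = a n := by
    unfold tpM
    rw [fc_tp, if_pos hn]
  rw [e2, Complex.mul_conj, Complex.normSq_eq_norm_sq, Complex.ofReal_re]

end

end Pool.Agent.Helper75.SH
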